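import Mathlib
import Pool.Agent.Helper36.Ses.Common

/-!
# The generic point of `E × B`, `E : y² = x³ + 1`, `B : w² = z⁶ + 1`
-/

open MvPolynomial

namespace Seshadri

/-! ### Homogenisation -/

section Homog

variable {k K ι : Type} [Field k] [Field K] [Algebra k K]

/-- homogenisation with respect to the variable `i₀` -/
noncomputable def homog (i₀ : ι) (d : ℕ) (p : MvPolynomial ι k) : MvPolynomial ι k :=
  ∑ m ∈ p.support, monomial (m + Finsupp.single i₀ (d - m.degree)) (p.coeff m)

lemma homog_isHomogeneous (i₀ : ι) (d : ℕ) (p : MvPolynomial ι k) (hd : p.totalDegree ≤ d) :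
    (homog i₀ d p).IsHomogeneous d := by
  unfold homog
  refine IsHomogeneous.sum _ _ _ fun m hm => ?_
  apply isHomogeneous_monomial
  have h1 : m.degree ≤ d := (le_totalDegree hm).trans hd
  rw [map_add, Finsupp.degree_single]
  omega

lemma aeval_homog (v : ι → K) (i₀ : ι) (h0 : v i₀ ≠ 0) (d : ℕ) (p : MvPolynomial ι k)
    (hd : p.totalDegree ≤ d) :
    aeval v (homog i₀ d p) = v i₀ ^ d * aeval (fun i => v i / v i₀) p := by
  unfold homog
  rw [map_sum]
  conv_rhs => rw [p.as_sum, map_sum, Finset.mul_sum]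
  refine Finset.sum_congr rfl fun m hm => ?_
  have h1 : m.degree ≤ d := (le_totalDegree hm).trans hd
  rw [aeval_monomial, aeval_monomial]
  rw [Finsupp.prod_add_index' (by simp) (by intro a b c; rw [pow_add])]
  rw [Finsupp.prod_single_index (by simp)]
  have h2 : (m.prod fun i n => (v i / v i₀) ^ n) = (m.prod fun i n => v i ^ n) / v i₀ ^ m.degree := by
    rw [Finsupp.prod, Finsupp.prod, Finsupp.degree_apply, ← Finset.prod_pow_eq_pow_sum,
      ← Finset.prod_div_distrib]
    exact Finset.prod_congr rfl fun i _ => div_pow _ _ _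
  rw [h2]
  have h3 : v i₀ ^ d = v i₀ ^ (d - m.degree) * v i₀ ^ m.degree := by
    rw [← pow_add]; congr 1; omega
  rw [h3]
  have : v i₀ ^ m.degree ≠ 0 := pow_ne_zero _ h0
  field_simp

/-- (O3b) elements of the field generated by the ratios of the coordinates of a vector are
quotients of homogeneous forms. -/
theorem span_of_adjoin (v : ι → K) (i₀ : ι)
    (h0 : v i₀ ≠ 0)
    (hadj : IntermediateField.adjoin k (Set.range fun i => v i / v i₀) = ⊤) (u : K) :
    ∃ (d : ℕ) (F G : MvPolynomial ι k), F.IsHomogeneous d ∧ G.IsHomogeneous d ∧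
      MvPolynomial.aeval v G ≠ 0 ∧ u * MvPolynomial.aeval v G = MvPolynomial.aeval v F := by
  have hu : u ∈ IntermediateField.adjoin k (Set.range fun i => v i / v i₀) := by
    rw [hadj]; trivial
  rw [IntermediateField.mem_adjoin_range_iff] at hu
  obtain ⟨r, s, hrs⟩ := hu
  by_cases hs : aeval (fun i => v i / v i₀) s = 0
  · rw [hs, div_zero] at hrs
    exact ⟨0, 0, 1, isHomogeneous_zero _ _ _, isHomogeneous_one _ _, by simp, by simp [hrs]⟩
  · refine ⟨max r.totalDegree s.totalDegree, homog i₀ _ r, homog i₀ _ s,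
      homog_isHomogeneous _ _ _ (le_max_left _ _), homog_isHomogeneous _ _ _ (le_max_right _ _),
      ?_, ?_⟩
    · rw [aeval_homog v i₀ h0 _ _ (le_max_right _ _)]
      exact mul_ne_zero (pow_ne_zero _ h0) hs
    · rw [aeval_homog v i₀ h0 _ _ (le_max_right _ _), aeval_homog v i₀ h0 _ _ (le_max_left _ _),
        hrs]
      field_simp

end Homog

/-! ### Quadratic extensions -/

section Quad

open scoped QuadraticAlgebra

variable {F : Type} [Field F] {D : F} [Fact (∀ r : F, r ^ 2 ≠ D + 0 * r)]

/-- the quadratic extension `F(√D)` -/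
abbrev QE (F : Type) [Field F] (D : F) : Type := QuadraticAlgebra F D 0

lemma QE.omega_sq : (QuadraticAlgebra.omega : QE F D) ^ 2 = algebraMap F (QE F D) D := by
  rw [pow_two, QuadraticAlgebra.omega_mul_omega_eq_mk]
  rfl

omit [Fact (∀ r : F, r ^ 2 ≠ D + 0 * r)] in
lemma QE.eta (z : QE F D) : z = algebraMap F (QE F D) z.re
    + algebraMap F (QE F D) z.im * QuadraticAlgebra.omega := by
  ext <;> simp [QuadraticAlgebra.algebraMap_eq]

lemma QE.adjoin_eq_top {k : Type} [Field k] [Algebra k F] (S : Set F)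
    (hS : IntermediateField.adjoin k S = ⊤) :
    IntermediateField.adjoin k (insert (QuadraticAlgebra.omega : QE F D)
      (algebraMap F (QE F D) '' S)) = ⊤ := by
  rw [eq_top_iff]
  intro z _
  have h1 : ∀ a : F, algebraMap F (QE F D) a ∈ IntermediateField.adjoin k
      (insert (QuadraticAlgebra.omega : QE F D) (algebraMap F (QE F D) '' S)) := by
    intro a
    have ha : a ∈ IntermediateField.adjoin k S := by rw [hS]; trivial
    have : algebraMap F (QE F D) a ∈ (IntermediateField.adjoin k S).map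
        (IsScalarTower.toAlgHom k F (QE F D)) := ⟨a, ha, rfl⟩
    rw [IntermediateField.adjoin_map] at this
    refine IntermediateField.adjoin.mono _ _ _ ?_ this
    exact Set.subset_insert _ _
  rw [QE.eta z]
  exact add_mem (h1 _) (mul_mem (h1 _)
    (IntermediateField.subset_adjoin _ _ (Set.mem_insert _ _)))

lemma QE.trdeg_eq {k : Type} [Field k] [Algebra k F] :
    Algebra.trdeg k (QE F D) = Algebra.trdeg k F := by
  have h := trdeg_add_eq k F (A := QE F D)
  have h2 : Algebra.trdeg F (QE F D) = 0 := by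
    have : Algebra.IsAlgebraic F (QE F D) := Algebra.IsAlgebraic.of_finite F (QE F D)
    exact trdeg_eq_zero
  rw [h2, add_zero] at h
  exact h.symm

omit [Fact (∀ r : F, r ^ 2 ≠ D + 0 * r)] in
lemma QE.eq_zero {a b : F} (h : algebraMap F (QE F D) a
    + algebraMap F (QE F D) b * QuadraticAlgebra.omega = 0) : a = 0 ∧ b = 0 := by
  have h1 := congrArg QuadraticAlgebra.re h
  have h2 := congrArg QuadraticAlgebra.im h
  simp [QuadraticAlgebra.algebraMap_eq] at h1 h2
  exact ⟨h1, h2⟩

omit [Fact (∀ r : F, r ^ 2 ≠ D + 0 * r)] in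
/-- `E` is not a square in `F(√D)` if neither `E` nor `E D` is a square in `F`. -/
lemma QE.not_sq (h2 : (2 : F) ≠ 0) (E : F) (h3 : ∀ a : F, a ^ 2 ≠ E) (h4 : ∀ a : F, a ^ 2 ≠ E * D)
    (r : QE F D) : r * r ≠ algebraMap F (QE F D) E := by
  intro h
  have hre := congrArg QuadraticAlgebra.re h
  have him := congrArg QuadraticAlgebra.im h
  simp only [QuadraticAlgebra.re_mul, QuadraticAlgebra.im_mul,
    QuadraticAlgebra.algebraMap_re, QuadraticAlgebra.algebraMap_im, zero_mul, add_zero] at hre him
  have h5 : r.re * r.im = 0 := by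
    have : 2 * (r.re * r.im) = 0 := by linear_combination him
    exact (mul_eq_zero.1 this).resolve_left h2
  rcases mul_eq_zero.1 h5 with h6 | h6
  · rw [h6] at hre
    exact h4 (r.im * D) (by linear_combination D * hre)
  · rw [h6] at hre
    exact h3 r.re (by linear_combination hre)

end Quad

/-- a polynomial that is a square in the fraction field is a square -/
lemma exists_sq_of_frac {R F : Type} [CommRing R] [IsDomain R] [IsIntegrallyClosed R] [Field F]
    [Algebra R F] [IsFractionRing R F] (f : R) (r : F) (h : r ^ 2 = algebraMap R F f) :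
    ∃ g : R, g ^ 2 = f := by
  obtain ⟨g, hg⟩ := IsIntegrallyClosed.exists_algebraMap_eq_of_isIntegral_pow (R := R) (K := F)
    (x := r) (n := 2) (by norm_num) (by rw [h]; exact isIntegral_algebraMap)
  refine ⟨g, IsFractionRing.injective R F ?_⟩
  rw [map_pow, hg, h]

section Generic

variable (k : Type) [Field k]

/-- `k(x, z)` -/
abbrev GF : Type := FractionRing (MvPolynomial (Fin 2) k)

/-- the coordinate `x` -/
noncomputable abbrev gx : GF k := algebraMap (MvPolynomial (Fin 2) k) (GF k) (X 0)

/-- the coordinate `z` -/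
noncomputable abbrev gz : GF k := algebraMap (MvPolynomial (Fin 2) k) (GF k) (X 1)

/-- `x³ + 1` -/
noncomputable abbrev GD : GF k := gx k ^ 3 + 1

variable {k} in
lemma not_sq_odd (g : Polynomial k) : g ^ 2 ≠ Polynomial.X ^ 3 + 1 := by
  intro h
  have h1 := congrArg Polynomial.natDegree h
  rw [Polynomial.natDegree_pow] at h1
  have h2 : (Polynomial.X ^ 3 + 1 : Polynomial k).natDegree = 3 := by
    compute_degree!
  omega

variable {k} in
lemma not_sq_six [CharP k 7] (g : Polynomial k) : g ^ 2 ≠ Polynomial.X ^ 6 + 1 := by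
  intro h
  have h7 : (7 : Polynomial k) = 0 := by
    have : ((7 : ℕ) : Polynomial k) = 0 := CharP.cast_eq_zero _ _
    exact_mod_cast this
  have hd := congrArg Polynomial.derivative h
  have hd' : 2 * g * Polynomial.derivative g = 6 * Polynomial.X ^ 5 := by
    have h6 : (Polynomial.C 6 : Polynomial k) = 6 := rfl
    simp only [pow_two, Polynomial.derivative_mul, Polynomial.derivative_add,
      Polynomial.derivative_X_pow, Polynomial.derivative_one, add_zero, Nat.cast_ofNat, h6] at hd
    norm_num at hd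
    linear_combination hd
  have h1 : g ∣ (1 : Polynomial k) := by
    -- X * (6 X^5) - 6 (X^6+1) = -6 = 1 mod 7
    refine ⟨2 * Polynomial.X * Polynomial.derivative g - 6 * g, ?_⟩
    linear_combination (-Polynomial.X) * hd' + 6 * h + h7
  have h2 : IsUnit g := isUnit_of_dvd_one h1
  have h3 := congrArg Polynomial.natDegree h
  rw [Polynomial.natDegree_pow, Polynomial.natDegree_eq_zero_of_isUnit h2] at h3
  have h4 : (Polynomial.X ^ 6 + 1 : Polynomial k).natDegree = 6 := by
    compute_degree!
  omega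

lemma GF_not_sq1 (r : GF k) : r ^ 2 ≠ GD k := by
  intro h
  obtain ⟨g, hg⟩ := exists_sq_of_frac (X 0 ^ 3 + 1 : MvPolynomial (Fin 2) k) r (by rw [h]; simp)
  apply not_sq_odd (aeval ![Polynomial.X, (0 : Polynomial k)] g)
  rw [← map_pow, hg]
  simp

lemma GF_not_sq2 [CharP k 7] (r : GF k) : r ^ 2 ≠ gz k ^ 6 + 1 := by
  intro h
  obtain ⟨g, hg⟩ := exists_sq_of_frac (X 1 ^ 6 + 1 : MvPolynomial (Fin 2) k) r (by rw [h]; simp)
  apply not_sq_six (aeval ![(0 : Polynomial k), Polynomial.X] g)
  rw [← map_pow, hg]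
  simp

lemma GF_not_sq3 (r : GF k) : r ^ 2 ≠ (gz k ^ 6 + 1) * GD k := by
  intro h
  obtain ⟨g, hg⟩ := exists_sq_of_frac ((X 1 ^ 6 + 1) * (X 0 ^ 3 + 1) : MvPolynomial (Fin 2) k) r
    (by rw [h]; simp)
  apply not_sq_odd (aeval ![Polynomial.X, (0 : Polynomial k)] g)
  rw [← map_pow, hg]
  simp

instance fact_GD : Fact (∀ r : GF k, r ^ 2 ≠ GD k + 0 * r) :=
  ⟨fun r => by rw [zero_mul, add_zero]; exact GF_not_sq1 k r⟩

/-- `k(x, z)(√(x³+1))` -/
abbrev GLf : Type := QE (GF k) (GD k)

/-- `z⁶ + 1` -/
noncomputable abbrev GEf : GLf k := algebraMap (GF k) (GLf k) (gz k ^ 6 + 1)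

lemma two_ne_zero_of_char [CharP k 7] : (2 : k) ≠ 0 := by
  intro h
  have h7 : (7 : k) = 0 := by
    have : ((7 : ℕ) : k) = 0 := CharP.cast_eq_zero _ _
    exact_mod_cast this
  have : (1 : k) = 0 := by linear_combination h7 - 3 * h
  exact one_ne_zero this

instance fact_GE [CharP k 7] : Fact (∀ r : GLf k, r ^ 2 ≠ GEf k + 0 * r) :=
  ⟨fun r => by
    rw [zero_mul, add_zero, pow_two]
    refine QE.not_sq ?_ _ (GF_not_sq2 k) (GF_not_sq3 k) r
    have : (2 : GF k) = algebraMap k (GF k) 2 := (map_ofNat _ 2).symm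
    rw [this]
    exact (map_ne_zero _).2 (two_ne_zero_of_char k)⟩

/-- the function field of `E × B` -/
abbrev GK : Type := QE (GLf k) (GEf k)

variable {k} in
/-- division with remainder by the two equations -/
lemma normal_form (P : MvPolynomial (Fin 4) k) : ∃ a b c d : MvPolynomial (Fin 2) k,
    ∀ (A : Type) [CommRing A] [Algebra k A] (x y z w : A), y ^ 2 = x ^ 3 + 1 → w ^ 2 = z ^ 6 + 1 →
      aeval ![x, y, z, w] P = (aeval ![x, z] a + aeval ![x, z] b * y)
        + (aeval ![x, z] c + aeval ![x, z] d * y) * w := by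
  induction P using MvPolynomial.induction_on with
  | C r =>
    refine ⟨C r, 0, 0, 0, fun A _ _ x y z w _ _ => ?_⟩
    simp
  | add p q hp hq =>
    obtain ⟨a, b, c, d, h⟩ := hp
    obtain ⟨a', b', c', d', h'⟩ := hq
    refine ⟨a + a', b + b', c + c', d + d', fun A _ _ x y z w h1 h2 => ?_⟩
    simp only [map_add, h A x y z w h1 h2, h' A x y z w h1 h2]
    ring
  | mul_X p i hp =>
    obtain ⟨a, b, c, d, h⟩ := hp
    fin_cases i
    · refine ⟨a * X 0, b * X 0, c * X 0, d * X 0, fun A _ _ x y z w h1 h2 => ?_⟩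
      simp only [map_mul, h A x y z w h1 h2, aeval_X]
      simp
      ring
    · refine ⟨b * (X 0 ^ 3 + 1), a, d * (X 0 ^ 3 + 1), c, fun A _ _ x y z w h1 h2 => ?_⟩
      simp only [map_mul, h A x y z w h1 h2, aeval_X, map_add, map_pow, map_one]
      simp
      linear_combination (aeval ![x, z] b + aeval ![x, z] d * w) * h1
    · refine ⟨a * X 1, b * X 1, c * X 1, d * X 1, fun A _ _ x y z w h1 h2 => ?_⟩
      simp only [map_mul, h A x y z w h1 h2, aeval_X]
      simp
      ring
    · refine ⟨c * (X 1 ^ 6 + 1), d * (X 1 ^ 6 + 1), a, b, fun A _ _ x y z w h1 h2 => ?_⟩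
      simp only [map_mul, h A x y z w h1 h2, aeval_X, map_add, map_pow, map_one]
      simp
      linear_combination (aeval ![x, z] c + aeval ![x, z] d * y) * h2

/-- the four coordinates -/
noncomputable abbrev Gx [CharP k 7] : GK k :=
  algebraMap (GLf k) (GK k) (algebraMap (GF k) (GLf k) (gx k))
noncomputable abbrev Gz [CharP k 7] : GK k :=
  algebraMap (GLf k) (GK k) (algebraMap (GF k) (GLf k) (gz k))
noncomputable abbrev Gy [CharP k 7] : GK k :=
  algebraMap (GLf k) (GK k) (QuadraticAlgebra.omega : GLf k)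
noncomputable abbrev Gw [CharP k 7] : GK k := (QuadraticAlgebra.omega : GK k)

lemma GF_adjoin : IntermediateField.adjoin k ({gx k, gz k} : Set (GF k)) = ⊤ := by
  rw [eq_top_iff]
  intro u _
  obtain ⟨p, q, hq, rfl⟩ := IsFractionRing.div_surjective (A := MvPolynomial (Fin 2) k) u
  have h1 : ∀ p : MvPolynomial (Fin 2) k, algebraMap (MvPolynomial (Fin 2) k) (GF k) p ∈
      IntermediateField.adjoin k ({gx k, gz k} : Set (GF k)) := by
    intro p
    induction p using MvPolynomial.induction_on with
    | C r =>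
      have : algebraMap (MvPolynomial (Fin 2) k) (GF k) (C r) = algebraMap k (GF k) r :=
        (IsScalarTower.algebraMap_apply k (MvPolynomial (Fin 2) k) (GF k) r).symm
      rw [this]
      exact IntermediateField.algebraMap_mem _ _
    | add p q hp hq => rw [map_add]; exact add_mem hp hq
    | mul_X p i hp =>
      rw [map_mul]
      refine mul_mem hp ?_
      fin_cases i
      · exact IntermediateField.subset_adjoin _ _ (by simp)
      · exact IntermediateField.subset_adjoin _ _ (by simp)
  exact div_mem (h1 p) (h1 q)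

lemma GF_trdeg : Algebra.trdeg k (GF k) = 2 := by
  have h := trdeg_add_eq k (MvPolynomial (Fin 2) k) (A := GF k)
  have h2 : Algebra.trdeg (MvPolynomial (Fin 2) k) (GF k) = 0 := by
    have : Algebra.IsAlgebraic (MvPolynomial (Fin 2) k) (GF k) :=
      (IsFractionRing.isAlgebraic_iff' (MvPolynomial (Fin 2) k) (MvPolynomial (Fin 2) k)
        (GF k)).1 inferInstance
    exact trdeg_eq_zero
  rw [h2, add_zero] at h
  rw [← h]
  simp

/-- abstract form: a tower of two quadratic extensions -/
lemma mkGenPt (k : Type) [Field k] (F L K : Type) [Field F] [Field L] [Field K] [Algebra k F]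
    [Algebra F L] [Algebra L K] [Algebra k L] [Algebra k K] [IsScalarTower k F L]
    [IsScalarTower k L K] (x z : F) (y : L) (w : K) (hy : y ^ 2 = algebraMap F L (x ^ 3 + 1))
    (hw : w ^ 2 = algebraMap L K (algebraMap F L (z ^ 6 + 1)))
    (indL : ∀ a b : F, algebraMap F L a + algebraMap F L b * y = 0 → a = 0 ∧ b = 0)
    (indK : ∀ a b : L, algebraMap L K a + algebraMap L K b * w = 0 → a = 0 ∧ b = 0)
    (ai : ∀ p : MvPolynomial (Fin 2) k, aeval ![x, z] p = 0 → p = 0)
    (adj : IntermediateField.adjoin k ({algebraMap L K (algebraMap F L x), algebraMap L K y,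
      algebraMap L K (algebraMap F L z), w} : Set K) = ⊤)
    (htr : Algebra.trdeg k K = 2) : Nonempty (GenPt k) := by
  have hE : (algebraMap L K y) ^ 2 = (algebraMap L K (algebraMap F L x)) ^ 3 + 1 := by
    rw [← map_pow, hy]; simp only [map_add, map_pow, map_one]
  have hB : w ^ 2 = (algebraMap L K (algebraMap F L z)) ^ 6 + 1 := by
    rw [hw]; simp only [map_add, map_pow, map_one]
  have hae : ∀ p : MvPolynomial (Fin 2) k,
      aeval ![algebraMap L K (algebraMap F L x), algebraMap L K (algebraMap F L z)] p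
        = algebraMap L K (algebraMap F L (aeval ![x, z] p)) := by
    intro p
    have h1 : (aeval ![algebraMap L K (algebraMap F L x), algebraMap L K (algebraMap F L z)] :
        MvPolynomial (Fin 2) k →ₐ[k] K) = ((IsScalarTower.toAlgHom k L K).comp
          ((IsScalarTower.toAlgHom k F L).comp (aeval ![x, z]))) := by
      apply MvPolynomial.algHom_ext
      intro i
      fin_cases i <;> simp
    rw [h1]
    rfl
  refine ⟨{ K := K, x := algebraMap L K (algebraMap F L x), y := algebraMap L K y,
            z := algebraMap L K (algebraMap F L z), w := w, hE := hE, hB := hB,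
            adjoin_eq_top := adj, trdeg := htr, spec := ?_ }⟩
  intro A _ _ x' y' z' w' h1 h2 P hP
  obtain ⟨a, b, c, d, h⟩ := normal_form P
  rw [h K _ _ _ _ hE hB, hae, hae, hae, hae] at hP
  have e1 : algebraMap L K (algebraMap F L (aeval ![x, z] a)
        + algebraMap F L (aeval ![x, z] b) * y)
      + algebraMap L K (algebraMap F L (aeval ![x, z] c)
        + algebraMap F L (aeval ![x, z] d) * y) * w = 0 := by
    rw [map_add, map_add, map_mul, map_mul]
    exact hP
  obtain ⟨e2, e3⟩ := indK _ _ e1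
  obtain ⟨e4, e5⟩ := indL _ _ e2
  obtain ⟨e6, e7⟩ := indL _ _ e3
  rw [h A x' y' z' w' h1 h2, ai a e4, ai b e5, ai c e6, ai d e7]
  simp

lemma aeval_GF (p : MvPolynomial (Fin 2) k) :
    aeval ![gx k, gz k] p = algebraMap (MvPolynomial (Fin 2) k) (GF k) p := by
  have h1 : (aeval ![gx k, gz k] : MvPolynomial (Fin 2) k →ₐ[k] GF k) =
      IsScalarTower.toAlgHom k (MvPolynomial (Fin 2) k) (GF k) := by
    apply MvPolynomial.algHom_ext
    intro i
    fin_cases i <;> simp
  rw [h1]
  rfl

/-- (O3a) -/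
theorem nonempty_genPt (k : Type) [Field k] [IsAlgClosed k] [CharP k 7] :
    Nonempty (GenPt k) := by
  refine mkGenPt k (GF k) (GLf k) (GK k) (gx k) (gz k) QuadraticAlgebra.omega
    QuadraticAlgebra.omega QE.omega_sq QE.omega_sq (fun a b h => QE.eq_zero h)
    (fun a b h => QE.eq_zero h) ?_ ?_ ?_
  · intro p hp
    rw [aeval_GF] at hp
    exact IsFractionRing.injective (MvPolynomial (Fin 2) k) (GF k) (by rw [hp, map_zero])
  · have h1 := QE.adjoin_eq_top (D := GD k) ({gx k, gz k} : Set (GF k)) (GF_adjoin k)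
    have h2 := QE.adjoin_eq_top (D := GEf k) _ h1
    rw [← h2]
    congr 1
    ext u
    simp only [Set.image_insert_eq, Set.image_singleton, Set.mem_insert_iff,
      Set.mem_singleton_iff]
    tauto
  · rw [QE.trdeg_eq, QE.trdeg_eq, GF_trdeg]

end Generic

end Seshadri
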