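import Mathlib
import Pool.Agent.Helper51.SesGeneric

open Polynomial

namespace Seshadri

/-- abstract form of the curve field: a tower of two quadratic extensions -/
lemma mkCurveField (k : Type) [Field k] (F L W : Type) [Field F] [Field L] [Field W] [Algebra k F]
    [Algebra F L] [Algebra L W] [Algebra k L] [Algebra k W] [Algebra F W] [IsScalarTower k F L]
    [IsScalarTower k L W] [IsScalarTower F L W] [IsScalarTower k F W] (n : ℕ)
    (t : F) (u : L) (m : W) (hu : u ^ 2 = algebraMap F L (1 + t ^ 6))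
    (hm : m ^ 2 = algebraMap F W (1 + t ^ (2 * 7 ^ n + 2) + 2 * t ^ (4 * 7 ^ n - 2)
        - 2 * t ^ (7 ^ n - 2) * (1 + t ^ 6) ^ ((7 ^ n + 1) / 2)))
    (htr : Algebra.trdeg k W = 1) (hT : ∀ c : k, t ≠ algebraMap k F c)
    (adjF : IntermediateField.adjoin k ({t} : Set F) = ⊤)
    (adjL : IntermediateField.adjoin k ({algebraMap F L t, u} : Set L) = ⊤)
    (adjW : IntermediateField.adjoin k ({algebraMap F W t, algebraMap L W u, m} : Set W) = ⊤)
    (rank : Module.finrank F W = 4)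
    (θ₁ : W ≃ₐ[k] W) (h1t : θ₁ (algebraMap F W t) = algebraMap F W t)
    (h1u : θ₁ (algebraMap L W u) = algebraMap L W u) (h1m : θ₁ m = -m)
    (θ₂ : W ≃ₐ[k] W) (h2t : θ₂ (algebraMap F W t) = algebraMap F W t)
    (h2u : θ₂ (algebraMap L W u) = -algebraMap L W u) (h2m : θ₂ m = m)
    (θ₃ : L ≃ₐ[k] L) (h3t : θ₃ (algebraMap F L t) = -algebraMap F L t) (h3u : θ₃ u = u) :
    ∃ (W : Type) (_ : Field W) (_ : Algebra k W) (T u m : W),
      Algebra.trdeg k W = 1 ∧
      u ^ 2 = 1 + T ^ 6 ∧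
      m ^ 2 = 1 + T ^ (2 * 7 ^ n + 2) + 2 * T ^ (4 * 7 ^ n - 2)
        - 2 * T ^ (7 ^ n - 2) * (1 + T ^ 6) ^ ((7 ^ n + 1) / 2) ∧
      (∀ c : k, T ≠ algebraMap k W c) ∧
      IntermediateField.adjoin k {T, u, m} = ⊤ ∧
      Module.finrank (IntermediateField.adjoin k {T}) W = 4 ∧
      (∃ θ : W ≃ₐ[k] W, θ T = T ∧ θ u = u ∧ θ m = -m) ∧
      (∃ θ : W ≃ₐ[k] W, θ T = T ∧ θ u = -u ∧ θ m = m) ∧
      (∃ θ : (IntermediateField.adjoin k {T, u}) ≃ₐ[k] (IntermediateField.adjoin k {T, u}),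
        (θ ⟨T, IntermediateField.subset_adjoin _ _ (by simp)⟩ : W) = -T ∧
        (θ ⟨u, IntermediateField.subset_adjoin _ _ (by simp)⟩ : W) = u) := by
  have hFLW : ∀ x : F, algebraMap F W x = algebraMap L W (algebraMap F L x) := fun x =>
    IsScalarTower.algebraMap_apply F L W x
  refine ⟨W, inferInstance, inferInstance, algebraMap F W t, algebraMap L W u, m, htr, ?_, ?_, ?_,
    adjW, ?_, ⟨θ₁, h1t, h1u, h1m⟩, ⟨θ₂, h2t, h2u, h2m⟩, ?_⟩
  · rw [← map_pow, hu, ← hFLW]; simp only [map_add, map_pow, map_one]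
  · rw [hm]; simp only [map_add, map_sub, map_mul, map_pow, map_one, map_ofNat]
  · intro c hc
    rw [IsScalarTower.algebraMap_apply k F W] at hc
    exact hT c ((algebraMap F W).injective hc)
  · -- the degree
    have e0 : (IsScalarTower.toAlgHom k F W).fieldRange
        = IntermediateField.adjoin k ({algebraMap F W t} : Set W) := by
      rw [AlgHom.fieldRange_eq_map, ← adjF, IntermediateField.adjoin_map]
      simp
    let i : F ≃ₐ[k] (IntermediateField.adjoin k ({algebraMap F W t} : Set W)) :=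
      (AlgEquiv.ofInjectiveField (IsScalarTower.toAlgHom k F W)).trans
        (IntermediateField.equivOfEq e0)
    rw [← rank]
    symm
    refine Algebra.finrank_eq_of_equiv_equiv i.toRingEquiv (RingEquiv.refl W) ?_
    ext x
    rfl
  · have e0 : (IsScalarTower.toAlgHom k L W).fieldRange
        = IntermediateField.adjoin k ({algebraMap F W t, algebraMap L W u} : Set W) := by
      rw [AlgHom.fieldRange_eq_map, ← adjL, IntermediateField.adjoin_map]
      simp [Set.image_insert_eq, hFLW]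
    let i : L ≃ₐ[k] (IntermediateField.adjoin k ({algebraMap F W t, algebraMap L W u} : Set W)) :=
      (AlgEquiv.ofInjectiveField (IsScalarTower.toAlgHom k L W)).trans
        (IntermediateField.equivOfEq e0)
    have hi : ∀ x : L, ((i x : (IntermediateField.adjoin k
        ({algebraMap F W t, algebraMap L W u} : Set W))) : W) = algebraMap L W x := fun x => rfl
    have hit : i (algebraMap F L t) = ⟨algebraMap F W t,
        IntermediateField.subset_adjoin _ _ (by simp)⟩ := by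
      apply Subtype.ext
      rw [hi, ← hFLW]
    have hiu : i u = ⟨algebraMap L W u,
        IntermediateField.subset_adjoin _ _ (by simp)⟩ := by
      apply Subtype.ext
      rw [hi]
    refine ⟨(i.symm.trans θ₃).trans i, ?_, ?_⟩
    · rw [← hit]
      simp only [AlgEquiv.trans_apply, AlgEquiv.symm_apply_apply]
      rw [hi, h3t, map_neg, ← hFLW]
    · rw [← hiu]
      simp only [AlgEquiv.trans_apply, AlgEquiv.symm_apply_apply]
      rw [hi, h3u]


/-! ### Automorphisms of quadratic extensions -/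

section QEaut

variable {k F : Type} [Field k] [Field F] [Algebra k F] {D : F}

/-- conjugation of a quadratic extension -/
def QE.conj (k : Type) {F : Type} [Field k] [Field F] [Algebra k F] (D : F) :
    QE F D ≃ₐ[k] QE F D where
  toFun z := ⟨z.re, -z.im⟩
  invFun z := ⟨z.re, -z.im⟩
  left_inv z := by ext <;> simp
  right_inv z := by ext <;> simp
  map_mul' x y := by
    ext
    · simp only [QuadraticAlgebra.re_mul]; ring
    · simp only [QuadraticAlgebra.im_mul]; ring
  map_add' x y := by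
    ext
    · simp
    · simp only [QuadraticAlgebra.im_add]; ring
  commutes' c := by
    rw [IsScalarTower.algebraMap_apply k F (QE F D)]
    ext <;> simp

/-- the automorphism of a quadratic extension induced by an automorphism of the base field -/
def QE.mapE (σ : F ≃ₐ[k] F) (hσ : σ D = D) : QE F D ≃ₐ[k] QE F D where
  toFun z := ⟨σ z.re, σ z.im⟩
  invFun z := ⟨σ.symm z.re, σ.symm z.im⟩
  left_inv z := by ext <;> simp
  right_inv z := by ext <;> simp
  map_mul' x y := by
    ext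
    · simp only [QuadraticAlgebra.re_mul, map_add, map_mul, hσ]
    · simp only [QuadraticAlgebra.im_mul, map_add, map_mul, zero_mul, map_zero]
  map_add' x y := by
    ext
    · simp
    · simp
  commutes' c := by
    rw [IsScalarTower.algebraMap_apply k F (QE F D)]
    ext <;> simp

lemma QE.conj_algebraMap (a : F) : QE.conj k D (algebraMap F (QE F D) a) = algebraMap F _ a := by
  ext <;> simp [QE.conj]

lemma QE.conj_omega : QE.conj k D QuadraticAlgebra.omega = -QuadraticAlgebra.omega := by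
  ext <;> simp [QE.conj]

lemma QE.mapE_algebraMap (σ : F ≃ₐ[k] F) (hσ : σ D = D) (a : F) :
    QE.mapE σ hσ (algebraMap F (QE F D) a) = algebraMap F _ (σ a) := by
  ext <;> simp [QE.mapE]

lemma QE.mapE_omega (σ : F ≃ₐ[k] F) (hσ : σ D = D) :
    QE.mapE σ hσ QuadraticAlgebra.omega = QuadraticAlgebra.omega := by
  ext <;> simp [QE.mapE]

lemma QE.conj_tower {G : Type} [Field G] [Algebra G F] (a : G) :
    QE.conj k D (algebraMap G (QE F D) a) = algebraMap G (QE F D) a := by
  have h : algebraMap G (QE F D) a = algebraMap F (QE F D) (algebraMap G F a) :=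
    IsScalarTower.algebraMap_apply G F (QE F D) a
  rw [h, QE.conj_algebraMap]

lemma QE.mapE_tower {G : Type} [Field G] [Algebra G F] (σ : F ≃ₐ[k] F) (hσ : σ D = D) (a : G)
    (ha : σ (algebraMap G F a) = algebraMap G F a) :
    QE.mapE σ hσ (algebraMap G (QE F D) a) = algebraMap G (QE F D) a := by
  have h : algebraMap G (QE F D) a = algebraMap F (QE F D) (algebraMap G F a) :=
    IsScalarTower.algebraMap_apply G F (QE F D) a
  rw [h, QE.mapE_algebraMap, ha]

end QEaut

/-! ### The polynomial `M` -/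

section CurveField

variable (k : Type) [Field k]

/-- the polynomial `M` -/
noncomputable def Mpoly (n : ℕ) : k[X] :=
  1 + X ^ (2 * 7 ^ n + 2) + 2 * X ^ (4 * 7 ^ n - 2)
        - 2 * X ^ (7 ^ n - 2) * (1 + X ^ 6) ^ ((7 ^ n + 1) / 2)

lemma natDegree_Mpoly [CharP k 7] (n : ℕ) (hn : 0 < n) :
    (Mpoly k n).natDegree = 4 * 7 ^ n + 1 := by
  have hq7 : 7 ≤ 7 ^ n := by
    calc 7 = 7 ^ 1 := by norm_num
      _ ≤ 7 ^ n := Nat.pow_le_pow_right (by norm_num) hn
  have hodd : Odd (7 ^ n) := Odd.pow (by decide)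
  obtain ⟨r, hr⟩ := hodd
  have h2 : (2 : k) ≠ 0 := two_ne_zero_of_char k
  have h6 : (1 + X ^ 6 : k[X]).natDegree = 6 := by compute_degree!
  have h60 : (1 + X ^ 6 : k[X]) ≠ 0 := by
    intro h
    rw [h] at h6
    simp at h6
  have hB : (2 * X ^ (7 ^ n - 2) * (1 + X ^ 6) ^ ((7 ^ n + 1) / 2) : k[X]).natDegree
      = 4 * 7 ^ n + 1 := by
    have e2 : (2 : k[X]) = C 2 := rfl
    rw [e2, natDegree_mul (mul_ne_zero (C_ne_zero.2 h2) (pow_ne_zero _ X_ne_zero))
      (pow_ne_zero _ h60), natDegree_C_mul_X_pow _ _ h2, natDegree_pow, h6]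
    omega
  have hA : (1 + X ^ (2 * 7 ^ n + 2) + 2 * X ^ (4 * 7 ^ n - 2) : k[X]).natDegree
      < 4 * 7 ^ n + 1 := by
    have e2 : (2 : k[X]) = C 2 := rfl
    refine lt_of_le_of_lt (natDegree_add_le _ _) (max_lt ?_ ?_)
    · refine lt_of_le_of_lt (natDegree_add_le _ _) (max_lt ?_ ?_)
      · rw [natDegree_one]; omega
      · rw [natDegree_X_pow]; omega
    · rw [e2, natDegree_C_mul_X_pow _ _ h2]; omega
  unfold Mpoly
  rw [natDegree_sub_eq_right_of_natDegree_lt (by rw [hB]; exact hA), hB]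

lemma natDegree_Mpoly_mul [CharP k 7] (n : ℕ) (hn : 0 < n) :
    (Mpoly k n * (1 + X ^ 6)).natDegree = 4 * 7 ^ n + 7 := by
  have h6 : (1 + X ^ 6 : k[X]).natDegree = 6 := by compute_degree!
  have h60 : (1 + X ^ 6 : k[X]) ≠ 0 := by
    intro h
    rw [h] at h6
    simp at h6
  have hM := natDegree_Mpoly k n hn
  have hM0 : Mpoly k n ≠ 0 := by
    intro h
    rw [h] at hM
    simp at hM
  rw [natDegree_mul hM0 h60, hM, h6]

lemma not_sq_of_odd {f : k[X]} {d : ℕ} (hf : f.natDegree = 2 * d + 1) (r : RatFunc k) :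
    r ^ 2 ≠ algebraMap k[X] (RatFunc k) f := by
  intro h
  obtain ⟨g, hg⟩ := exists_sq_of_frac f r h
  have h1 := congrArg natDegree hg
  rw [natDegree_pow, hf] at h1
  omega

/-- `1 + X⁶` -/
noncomputable def RD : RatFunc k := algebraMap k[X] (RatFunc k) (1 + X ^ 6)

/-- `M` as a rational function -/
noncomputable def RM (n : ℕ) : RatFunc k := algebraMap k[X] (RatFunc k) (Mpoly k n)

lemma RD_eq : RD k = 1 + RatFunc.X ^ 6 := by
  unfold RD
  simp

lemma RM_eq (n : ℕ) : RM k n = 1 + RatFunc.X ^ (2 * 7 ^ n + 2) + 2 * RatFunc.X ^ (4 * 7 ^ n - 2)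
        - 2 * RatFunc.X ^ (7 ^ n - 2) * (1 + RatFunc.X ^ 6) ^ ((7 ^ n + 1) / 2) := by
  unfold RM Mpoly
  simp only [map_add, map_sub, map_mul, map_pow, map_one, map_ofNat, RatFunc.algebraMap_X]

lemma RD_not_sq [CharP k 7] (r : RatFunc k) : r ^ 2 ≠ RD k := by
  intro h
  obtain ⟨g, hg⟩ := exists_sq_of_frac _ r h
  exact not_sq_six g (by rw [hg]; ring)

instance fact_RD [CharP k 7] : Fact (∀ r : RatFunc k, r ^ 2 ≠ RD k + 0 * r) :=
  ⟨fun r => by rw [zero_mul, add_zero]; exact RD_not_sq k r⟩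

lemma RM_not_sq [CharP k 7] (n : ℕ) (hn : 0 < n) (r : RatFunc k) : r ^ 2 ≠ RM k n :=
  not_sq_of_odd k (d := 2 * 7 ^ n) (by rw [natDegree_Mpoly k n hn]; ring) r

lemma RM_mul_not_sq [CharP k 7] (n : ℕ) (hn : 0 < n) (r : RatFunc k) :
    r ^ 2 ≠ RM k n * RD k := by
  have h : RM k n * RD k = algebraMap k[X] (RatFunc k) (Mpoly k n * (1 + X ^ 6)) := by
    unfold RM RD
    rw [map_mul]
  rw [h]
  exact not_sq_of_odd k (d := 2 * 7 ^ n + 3) (by rw [natDegree_Mpoly_mul k n hn]; ring) r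

lemma fact_RM [CharP k 7] (n : ℕ) (hn : 0 < n) :
    Fact (∀ r : QE (RatFunc k) (RD k), r ^ 2 ≠ algebraMap (RatFunc k) (QE (RatFunc k) (RD k))
      (RM k n) + 0 * r) :=
  ⟨fun r => by
    rw [zero_mul, add_zero, pow_two]
    refine QE.not_sq ?_ _ (RM_not_sq k n hn) (RM_mul_not_sq k n hn) r
    have : (2 : RatFunc k) = algebraMap k (RatFunc k) 2 := (map_ofNat _ 2).symm
    rw [this]
    exact (_root_.map_ne_zero _).2 (two_ne_zero_of_char k)⟩

lemma ratFunc_trdeg : Algebra.trdeg k (RatFunc k) = 1 := by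
  have h := trdeg_add_eq k k[X] (A := RatFunc k)
  have h2 : Algebra.trdeg k[X] (RatFunc k) = 0 := by
    have : Algebra.IsAlgebraic k[X] (RatFunc k) :=
      (IsFractionRing.isAlgebraic_iff' k[X] k[X] (RatFunc k)).1 inferInstance
    exact trdeg_eq_zero
  rw [h2, add_zero] at h
  rw [← h]
  simp

/-- the involution `X ↦ -X` -/
noncomputable def negX : RatFunc k ≃ₐ[k] RatFunc k :=
  IsFractionRing.algEquivOfAlgEquiv (A := k[X]) (B := k[X]) algEquivAevalNegX

lemma negX_X : negX k RatFunc.X = -RatFunc.X := by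
  unfold negX
  rw [← RatFunc.algebraMap_X, IsFractionRing.algEquivOfAlgEquiv_algebraMap]
  simp

lemma negX_RD : negX k (RD k) = RD k := by
  rw [RD_eq, map_add, map_pow, negX_X, map_one]
  ring

lemma X_ne_C (c : k) : (RatFunc.X : RatFunc k) ≠ algebraMap k (RatFunc k) c := by
  intro h
  rw [← RatFunc.algebraMap_X, IsScalarTower.algebraMap_apply k k[X] (RatFunc k)] at h
  have := IsFractionRing.injective k[X] (RatFunc k) h
  have h2 := congrArg natDegree this
  rw [natDegree_X] at h2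
  have h3 : (algebraMap k k[X] c).natDegree = 0 := natDegree_C c
  rw [h3] at h2
  exact one_ne_zero h2

/-- `k(T)(√(1+T⁶))` -/
abbrev CL : Type := QE (RatFunc k) (RD k)

/-- (O4) For `q = 7^n` the field `W = k(T)(√(1+T⁶))(√M)`,
`M = 1 + T^{2q+2} + 2 T^{4q-2} - 2 T^{q-2} (1+T⁶)^{(q+1)/2}`. -/
theorem exists_curveField (k : Type) [Field k] [IsAlgClosed k] [CharP k 7] (n : ℕ) (hn : 0 < n) :
    ∃ (W : Type) (_ : Field W) (_ : Algebra k W) (T u m : W),
      Algebra.trdeg k W = 1 ∧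
      u ^ 2 = 1 + T ^ 6 ∧
      m ^ 2 = 1 + T ^ (2 * 7 ^ n + 2) + 2 * T ^ (4 * 7 ^ n - 2)
        - 2 * T ^ (7 ^ n - 2) * (1 + T ^ 6) ^ ((7 ^ n + 1) / 2) ∧
      (∀ c : k, T ≠ algebraMap k W c) ∧
      IntermediateField.adjoin k {T, u, m} = ⊤ ∧
      Module.finrank (IntermediateField.adjoin k {T}) W = 4 ∧
      (∃ θ : W ≃ₐ[k] W, θ T = T ∧ θ u = u ∧ θ m = -m) ∧
      (∃ θ : W ≃ₐ[k] W, θ T = T ∧ θ u = -u ∧ θ m = m) ∧
      -- the involution `T ↦ -T`, `u ↦ u` of the subfield `k(T,u)`: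
      (∃ θ : (IntermediateField.adjoin k {T, u}) ≃ₐ[k] (IntermediateField.adjoin k {T, u}),
        (θ ⟨T, IntermediateField.subset_adjoin _ _ (by simp)⟩ : W) = -T ∧
        (θ ⟨u, IntermediateField.subset_adjoin _ _ (by simp)⟩ : W) = u) := by
  have := fact_RM k n hn
  have hu : (QuadraticAlgebra.omega : CL k) ^ 2
      = algebraMap (RatFunc k) (CL k) (1 + RatFunc.X ^ 6) :=
    QE.omega_sq.trans (congrArg (algebraMap (RatFunc k) (CL k)) (RD_eq k))
  have h1 := QE.adjoin_eq_top (k := k) (D := RD k) ({RatFunc.X} : Set (RatFunc k))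
    RatFunc.adjoin_X
  have h2 := QE.adjoin_eq_top (k := k) (D := algebraMap (RatFunc k) (CL k) (RM k n)) _ h1
  have hc : QE.conj k (RD k) (algebraMap (RatFunc k) (CL k) (RM k n))
      = algebraMap (RatFunc k) (CL k) (RM k n) := QE.conj_algebraMap _
  refine mkCurveField k (RatFunc k) (CL k)
    (QE (CL k) (algebraMap (RatFunc k) (CL k) (RM k n))) n RatFunc.X
    QuadraticAlgebra.omega QuadraticAlgebra.omega hu ?_ ?_ (X_ne_C k) RatFunc.adjoin_X ?_ ?_ ?_
    (QE.conj k _) ?_ ?_ ?_ (QE.mapE (QE.conj k _) hc) ?_ ?_ ?_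
    (QE.mapE (negX k) (negX_RD k)) ?_ ?_
  · rw [QE.omega_sq, ← RM_eq]
    rfl
  · rw [QE.trdeg_eq, QE.trdeg_eq, ratFunc_trdeg]
  · rw [← h1]
    congr 1
    ext u
    simp only [Set.image_singleton, Set.mem_insert_iff, Set.mem_singleton_iff]
    tauto
  · rw [← h2]
    congr 1
    ext u
    simp only [Set.image_insert_eq, Set.image_singleton, Set.mem_insert_iff,
      Set.mem_singleton_iff, IsScalarTower.algebraMap_apply (RatFunc k) (CL k)
        (QE (CL k) (algebraMap (RatFunc k) (CL k) (RM k n)))]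
    tauto
  · rw [← Module.finrank_mul_finrank (RatFunc k) (CL k)
      (QE (CL k) (algebraMap (RatFunc k) (CL k) (RM k n))),
      QuadraticAlgebra.finrank_eq_two, QuadraticAlgebra.finrank_eq_two]
  · exact QE.conj_tower _
  · rw [QE.conj_algebraMap]
  · rw [QE.conj_omega]
  · exact QE.mapE_tower _ _ _ (QE.conj_algebraMap _)
  · rw [QE.mapE_algebraMap, QE.conj_omega, map_neg]
  · rw [QE.mapE_omega]
  · rw [QE.mapE_algebraMap, negX_X, map_neg]
  · rw [QE.mapE_omega]

end CurveField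


end Seshadri
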