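import Mathlib
import Pool.Agent.Helper36.Ses.WData
import Pool.Agent.Helper51.SesCurveField

/-!
# The field `W` and the point `b`
-/

open Polynomial

namespace Seshadri

open Pt

/-- (O7) from `exists_curveField`. -/
theorem nonempty_wData (k : Type) [Field k] [IsAlgClosed k] [CharP k 7] (n : ℕ) (hn : 0 < n) :
    Nonempty (WData k n) := by
  classical
  obtain ⟨W, _, _, T, u, m, h1, h2, h3, h4, h5, h6, ⟨θ₁, e1, e2, e3⟩, ⟨θ₂, e4, e5, e6⟩, -⟩ :=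
    exists_curveField k n hn
  have hc : CharP W 7 := charP_of_injective_algebraMap (algebraMap k W).injective 7
  exact ⟨{ W := W, charP := hc, curve := ⟨h1, ⟨{T, u, m}, by simpa using h5⟩⟩, T := T, u := u,
           m := m, hu := by rw [h2]; ring, hm := h3, transc := h4, adjoin_eq_top := h5, deg := h6,
           θ₁ := θ₁, θ₁T := e1, θ₁u := e2, θ₁m := e3, θ₂ := θ₂, θ₂T := e4, θ₂u := e5,
           θ₂m := e6 }⟩

/-- over an algebraically closed field, algebraic elements are constants -/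
lemma exists_const {k L : Type} [Field k] [IsAlgClosed k] [Field L] [Algebra k L] (x : L)
    (p : k[X]) (hp : p ≠ 0) (h : aeval x p = 0) : ∃ c : k, x = algebraMap k L c := by
  have hal : IsAlgebraic k x := ⟨p, hp, h⟩
  have hx : IsIntegral k x := hal.isIntegral
  have hirr := minpoly.irreducible hx
  have hdeg := IsAlgClosed.degree_eq_one_of_irreducible k hirr
  obtain ⟨c, hc⟩ := minpoly.mem_range_of_degree_eq_one k x hdeg
  exact ⟨c, hc.symm⟩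

lemma pow_sub_self_ne {k L : Type} [Field k] [IsAlgClosed k] [Field L] [Algebra k L] (x : L)
    (hx : ∀ c : k, x ≠ algebraMap k L c) : x ^ 7 ≠ x := by
  intro h
  obtain ⟨c, hc⟩ := exists_const (k := k) x (X ^ 7 - X) (by
    intro h0
    have h1 : (X ^ 7 - X : k[X]).natDegree = 7 := by compute_degree!
    rw [h0] at h1
    simp at h1) (by simp [h])
  exact hx c hc

/-- (O7) Frobenius on points. -/
theorem frob_pow_mk {k : Type} [Field k] [IsAlgClosed k] [CharP k 7] {L : Type} [Field L]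
    [Algebra k L] [CharP L 7] {x y : L}
    (h : y ^ 2 = x ^ 3 + 1) (hx : ∀ c : k, x ≠ algebraMap k L c) (n : ℕ)
    (h' : (y ^ 7 ^ n) ^ 2 = (x ^ 7 ^ n) ^ 3 + 1) :
    mk (x ^ 7 ^ n) (y ^ 7 ^ n) h' = Fr ^ n • mk x y h := by
  have : Fact (Nat.Prime 7) := ⟨by norm_num⟩
  induction n with
  | zero =>
    have e : Fr ^ 0 • mk x y h = mk x y h := by rw [pow_zero, one_smul]
    rw [e]
    exact mk_congr (by simp) (by simp)
  | succ n ih =>
    have h1 : (y ^ 7 ^ n) ^ 2 = (x ^ 7 ^ n) ^ 3 + 1 := by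
      rw [← pow_mul, mul_comm, pow_mul, h, ← pow_mul, mul_comm (7 ^ n) 3, pow_mul,
        add_pow_char_pow, one_pow]
    have h2 : (x ^ 7 ^ n) ^ 7 ≠ x ^ 7 ^ n := by
      intro h2
      have h3 : (x ^ 7 - x) ^ 7 ^ n = 0 := by
        rw [sub_pow_char_pow, ← pow_mul, mul_comm, pow_mul, h2, sub_self]
      have h4 := pow_eq_zero_iff (by positivity) |>.1 h3
      exact pow_sub_self_ne x hx (sub_eq_zero.1 h4)
    have h3 : ((y ^ 7 ^ n) ^ 7) ^ 2 = ((x ^ 7 ^ n) ^ 7) ^ 3 + 1 := by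
      have e1 : (y ^ 7 ^ n) ^ 7 = y ^ 7 ^ (n + 1) := by rw [← pow_mul, ← pow_succ]
      have e2 : (x ^ 7 ^ n) ^ 7 = x ^ 7 ^ (n + 1) := by rw [← pow_mul, ← pow_succ]
      rw [e1, e2, h']
    have h4 := frob_mk h1 h2 h3
    rw [ih h1] at h4
    have h5 : Fr ^ (n + 1) • mk x y h = Fr • Fr ^ n • mk x y h := by rw [pow_succ', mul_smul]
    rw [h5, ← h4]
    exact mk_congr (by rw [← pow_mul, ← pow_succ]) (by rw [← pow_mul, ← pow_succ])

variable {k : Type} [Field k] [IsAlgClosed k] [CharP k 7] {n : ℕ}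

omit [IsAlgClosed k] [CharP k 7] in
lemma WData.T_ne_zero (D : WData k n) : D.T ≠ 0 := by
  intro h
  exact D.transc 0 (by rw [h, map_zero])

omit [CharP k 7] in
lemma WData.one_sub_ne (D : WData k n) : 1 - D.T ^ (2 * 7 ^ n + 2) ≠ 0 := by
  intro h
  obtain ⟨c, hc⟩ := exists_const (k := k) D.T (1 - X ^ (2 * 7 ^ n + 2)) (by
    intro h0
    have h1 : (1 - X ^ (2 * 7 ^ n + 2) : k[X]).natDegree = 2 * 7 ^ n + 2 := by
      rw [natDegree_sub_eq_right_of_natDegree_lt]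
      · rw [natDegree_X_pow]
      · rw [natDegree_X_pow, natDegree_one]; omega
    rw [h0] at h1
    simp at h1) (by simp [h])
  exact D.transc c hc

lemma WData.m_ne_zero (hn : 0 < n) (D : WData k n) : D.m ≠ 0 := by
  intro h
  have hm := D.hm
  rw [h] at hm
  obtain ⟨c, hc⟩ := exists_const (k := k) D.T (Mpoly k n) (by
    intro h0
    have h1 := natDegree_Mpoly k n hn
    rw [h0] at h1
    simp at h1) (by
      unfold Mpoly
      simp only [map_add, map_sub, map_mul, map_pow, map_one, aeval_X, map_ofNat]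
      rw [← hm]
      ring)
  exact D.transc c hc

/-- the algebra behind the point `b` -/
lemma point_algebra {L : Type} [Field L] (T u m a C : L) (ha : a ≠ 0)
    (hd : 1 - a ^ 2 * T ^ 2 ≠ 0) (hu : u ^ 2 = T ^ 6 + 1) (hC : (1 + T ^ 6) * C ^ 2 = 1 + a ^ 6)
    (hm : T ^ 2 * m ^ 2 = T ^ 2 + a ^ 2 * T ^ 4 + 2 * a ^ 4 - 2 * a * ((1 + T ^ 6) * C))
    (z l : L) (hz : z = T * m / (1 - a ^ 2 * T ^ 2))
    (hl : l = u * a⁻¹ * (C - a ^ 3) / (1 - a ^ 2 * T ^ 2)) :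
    l ^ 2 - T ^ 2 - a⁻¹ ^ 2 = z ^ 2 ∧
    l * (T ^ 2 - a⁻¹ ^ 2) = u - u * C * a⁻¹ ^ 3 := by
  constructor
  · rw [hz, hl]
    rw [div_pow, div_pow, mul_pow T m, hm]
    field_simp
    linear_combination (C - a ^ 3) ^ 2 * hu + hC
  · rw [hl]
    field_simp
    ring

/-- (O7) the point `b` -/
theorem nonempty_wPoint (hn : 0 < n) (D : WData k n) : Nonempty (WPoint D) := by
  have : Fact (Nat.Prime 7) := ⟨by norm_num⟩
  have hT0 : D.T ≠ 0 := D.T_ne_zero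
  have hm0 : D.m ≠ 0 := D.m_ne_zero hn
  have hd0 : 1 - D.T ^ (2 * 7 ^ n + 2) ≠ 0 := D.one_sub_ne
  have hq7 : 7 ≤ 7 ^ n := by
    calc 7 = 7 ^ 1 := by norm_num
      _ ≤ 7 ^ n := Nat.pow_le_pow_right (by norm_num) hn
  have hodd : Odd (7 ^ n) := Odd.pow (by decide)
  obtain ⟨r, hr⟩ := hodd
  -- abbreviations
  set a : D.W := D.T ^ 7 ^ n with ha
  set C : D.W := (1 + D.T ^ 6) ^ ((7 ^ n - 1) / 2) with hC
  have ha0 : a ≠ 0 := pow_ne_zero _ hT0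
  have e1 : D.T ^ (2 * 7 ^ n + 2) = a ^ 2 * D.T ^ 2 := by
    rw [ha, ← pow_mul, ← pow_add]; congr 1; ring
  have e2 : D.T ^ 2 * D.T ^ (4 * 7 ^ n - 2) = a ^ 4 := by
    rw [ha, ← pow_mul, ← pow_add]; congr 1; omega
  have e3 : D.T ^ 2 * D.T ^ (7 ^ n - 2) = a := by
    rw [ha, ← pow_add]; congr 1; omega
  have e4 : (1 + D.T ^ 6) ^ ((7 ^ n + 1) / 2) = (1 + D.T ^ 6) * C := by
    rw [hC, ← pow_succ']; congr 1; omega
  have e5 : (1 + D.T ^ 6) * C ^ 2 = 1 + a ^ 6 := by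
    have h1 : (1 + D.T ^ 6) * C ^ 2 = (1 + D.T ^ 6) ^ 7 ^ n := by
      rw [hC, ← pow_mul, ← pow_succ']; congr 1; omega
    rw [h1, add_pow_char_pow, one_pow, ha, ← pow_mul, ← pow_mul, mul_comm]
  have e6 : D.T ^ (3 * 7 ^ n) = a ^ 3 := by
    rw [ha, ← pow_mul]; congr 1; ring
  have e7 : D.T⁻¹ ^ (7 ^ n) = a⁻¹ := by rw [ha, inv_pow]
  have e8 : D.u ^ 7 ^ n = D.u * C := by
    have h1 : 7 ^ n = 1 + 2 * ((7 ^ n - 1) / 2) := by omega
    have h2 : D.u ^ 7 ^ n = D.u ^ (1 + 2 * ((7 ^ n - 1) / 2)) := congrArg (fun i => D.u ^ i) h1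
    rw [h2, pow_add, pow_one, pow_mul, D.hu, hC, add_comm (D.T ^ 6) 1]
  rw [e1] at hd0
  have hm : D.T ^ 2 * D.m ^ 2 = D.T ^ 2 + a ^ 2 * D.T ^ 4 + 2 * a ^ 4
      - 2 * a * ((1 + D.T ^ 6) * C) := by
    rw [D.hm, e1, e4]
    linear_combination 2 * e2 - 2 * ((1 + D.T ^ 6) * C) * e3
  obtain ⟨f1, f2⟩ := point_algebra D.T D.u D.m a C ha0 hd0 D.hu e5 hm _ _ rfl rfl
  set z : D.W := D.T * D.m / (1 - a ^ 2 * D.T ^ 2) with hz
  set l : D.W := D.u * a⁻¹ * (C - a ^ 3) / (1 - a ^ 2 * D.T ^ 2) with hl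
  have hz0 : z ≠ 0 := div_ne_zero (mul_ne_zero hT0 hm0) hd0
  -- the two points
  have h₁ : D.u ^ 2 = (D.T ^ 2) ^ 3 + 1 := by rw [D.hu]; ring
  have h₂0 : (D.u * D.T⁻¹ ^ 3) ^ 2 = (D.T⁻¹ ^ 2) ^ 3 + 1 := by
    rw [mul_pow, D.hu]; field_simp; ring
  have h₂ : (D.u * C * a⁻¹ ^ 3) ^ 2 = (a⁻¹ ^ 2) ^ 3 + 1 := by
    rw [mul_pow, mul_pow, D.hu]
    field_simp
    linear_combination e5
  have hne : D.T ^ 2 ≠ a⁻¹ ^ 2 := by
    intro h
    apply hd0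
    field_simp at h
    linear_combination -h
  have hl2 : l * (D.u + D.u * C * a⁻¹ ^ 3) = (D.T ^ 2) ^ 2 + D.T ^ 2 * a⁻¹ ^ 2 + (a⁻¹ ^ 2) ^ 2 := by
    have h3 : (D.T ^ 2 - a⁻¹ ^ 2) * (l * (D.u + D.u * C * a⁻¹ ^ 3)
        - ((D.T ^ 2) ^ 2 + D.T ^ 2 * a⁻¹ ^ 2 + (a⁻¹ ^ 2) ^ 2)) = 0 := by
      linear_combination (D.u + D.u * C * a⁻¹ ^ 3) * f2 + h₁ - h₂
    have h4 := (mul_eq_zero.1 h3).resolve_left (sub_ne_zero.2 hne)
    exact sub_eq_zero.1 h4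
  have hsum := mk_add_mk h₁ h₂ (fun hh => hne hh.1) f2 hl2
  have h3 := third_eq h₁ f2 hl2
  -- Frobenius of `t'`
  have hx2 : ∀ c : k, D.T⁻¹ ^ 2 ≠ algebraMap k D.W c := by
    intro c hc
    obtain ⟨c', hc'⟩ := exists_const (k := k) D.T (1 - Polynomial.C c * X ^ 2) (by
      intro h0
      have h1 := congrArg (fun p => Polynomial.eval 0 p) h0
      simp at h1) (by
        simp only [map_sub, map_mul, map_pow, map_one, aeval_X, aeval_C]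
        rw [← hc]
        field_simp
        ring)
    exact D.transc c' hc'
  have hf1 : ((D.u * D.T⁻¹ ^ 3) ^ 7 ^ n) ^ 2 = ((D.T⁻¹ ^ 2) ^ 7 ^ n) ^ 3 + 1 := by
    have g1 : (D.u * D.T⁻¹ ^ 3) ^ 7 ^ n = D.u * C * a⁻¹ ^ 3 := by
      rw [mul_pow, e8, ← pow_mul, mul_comm 3, pow_mul, e7]
    have g2 : (D.T⁻¹ ^ 2) ^ 7 ^ n = a⁻¹ ^ 2 := by
      rw [← pow_mul, mul_comm 2, pow_mul, e7]
    rw [g1, g2, h₂]
  have hf2 : Fr ^ n • pt2 D.T D.u hT0 D.hu = mk (a⁻¹ ^ 2) (D.u * C * a⁻¹ ^ 3) h₂ := by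
    have g := frob_pow_mk h₂0 hx2 n hf1
    have g' : Fr ^ n • pt2 D.T D.u hT0 D.hu
        = mk ((D.T⁻¹ ^ 2) ^ 7 ^ n) ((D.u * D.T⁻¹ ^ 3) ^ 7 ^ n) hf1 := g.symm
    rw [g']
    refine mk_congr ?_ ?_
    · rw [← pow_mul, mul_comm 2, pow_mul, e7]
    · rw [mul_pow, e8, ← pow_mul, mul_comm 3, pow_mul, e7]
  have hw : (-(l * (z ^ 2 - D.T ^ 2) + D.u)) ^ 2 = z ^ 6 + 1 := by
    rw [← f1, h3, f1]; ring
  refine ⟨{ z := z, w := -(l * (z ^ 2 - D.T ^ 2) + D.u), hT0 := hT0, hz0 := hz0, hw := hw,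
            hz := ?_, sum := ?_, w_eq := ?_ }⟩
  · rw [e1]
  · rw [hf2]
    have g3 : pt1 D.T D.u D.hu = mk (D.T ^ 2) D.u h₁ := rfl
    rw [g3, hsum]
    unfold pt1
    refine mk_congr f1.symm ?_
    rw [f1]
  · rw [e7, e6, e1]

end Seshadri
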