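import Mathlib
import Pool.Agent.Helper92.HRT.Defs

/-! Piece O2: lazy random walk and binomial probabilities. -/

set_option autoImplicit false

namespace Pool.Agent.Helper92.HRT

open MeasureTheory Finset

/-! ### the lazy random walk -/

theorem e_eq (t : ℝ) : e t = Complex.exp (Complex.I * (Real.pi * t)) * Complex.exp (Complex.I * (Real.pi * t)) := by
  rw [e, ← Complex.exp_add]
  congr 1
  ring

theorem ev_Hl (n : ℕ) (g x : ℝ) :
    ev (Hl n g) x = ((Real.cos (Real.pi * (g * x)) ^ (2 * n) : ℝ) : ℂ) := by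
  have h1 : ev (Hl n g) x = ∑ k ∈ range (2 * n + 1), (rho n k : ℂ) * e (((k : ℝ) - n) * g * x) := by
    unfold ev Hl
    rw [List.map_map, Finset.sum_range]
    rw [← List.sum_ofFn]
    congr 1
    rw [List.ofFn_eq_map, ← List.map_coe_finRange_eq_range, List.map_map]
    rfl
  set z : ℂ := Complex.exp (((Real.pi * (g * x) : ℝ) : ℂ) * Complex.I) with hz
  set w : ℂ := Complex.exp (-((Real.pi * (g * x) : ℝ) : ℂ) * Complex.I) with hw
  have hzw : z * w = 1 := by
    rw [hz, hw, ← Complex.exp_add]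
    have : ((Real.pi * (g * x) : ℝ) : ℂ) * Complex.I + -((Real.pi * (g * x) : ℝ) : ℂ) * Complex.I = 0 := by
      ring
    rw [this, Complex.exp_zero]
  have h2 : ((Real.cos (Real.pi * (g * x)) ^ (2 * n) : ℝ) : ℂ) = ((z + w) / 2) ^ (2 * n) := by
    rw [Complex.ofReal_pow, Complex.ofReal_cos]
    rfl
  rw [h1, h2, div_pow, add_pow, Finset.sum_div]
  refine sum_congr rfl fun k hk => ?_
  have hk' : k ≤ 2 * n := Nat.lt_succ_iff.1 (mem_range.1 hk)
  have h3 : e (((k : ℝ) - n) * g * x) = z ^ k * w ^ (2 * n - k) := by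
    rw [e, hz, hw, ← Complex.exp_nat_mul, ← Complex.exp_nat_mul, ← Complex.exp_add]
    congr 1
    rw [Nat.cast_sub hk']
    push_cast
    ring
  rw [h3, rho]
  have h4 : (2 : ℂ) ^ (2 * n) = 4 ^ n := by
    rw [pow_mul]
    norm_num
  rw [h4]
  push_cast
  ring

theorem sum_rho (n : ℕ) : ∑ k ∈ range (2 * n + 1), rho n k = 1 := by
  unfold rho
  rw [← Finset.sum_div]
  have := Nat.sum_range_choose (2 * n)
  have h : (∑ k ∈ range (2 * n + 1), (Nat.choose (2 * n) k : ℝ)) = 4 ^ n := by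
    have h' : ((∑ k ∈ range (2 * n + 1), Nat.choose (2 * n) k : ℕ) : ℝ) = ((2 ^ (2 * n) : ℕ) : ℝ) := by
      rw [this]
    rw [pow_mul] at h'
    push_cast at h'
    rw [h']
  rw [h]
  exact div_self (by positivity)

theorem rhoC_zero : rhoC 0 = 1 := by
  simp [rhoC, rho]

theorem rhoC_succ (n : ℕ) : rhoC (n + 1) = rhoC n * ((2 * n + 1) / (2 * n + 2)) := by
  unfold rhoC rho
  have h : ((n : ℝ) + 1) * (Nat.choose (2 * (n + 1)) (n + 1) : ℝ)
      = 2 * (2 * n + 1) * (Nat.choose (2 * n) n : ℝ) := by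
    have := Nat.succ_mul_centralBinom_succ n
    unfold Nat.centralBinom at this
    exact_mod_cast this
  have h1 : (Nat.choose (2 * (n + 1)) (n + 1) : ℝ)
      = 2 * (2 * n + 1) * (Nat.choose (2 * n) n : ℝ) / (n + 1) := by
    rw [eq_div_iff (by positivity)]
    linarith
  rw [h1, pow_succ]
  field_simp
  ring

theorem rhoC_nonneg (n : ℕ) : 0 ≤ rhoC n := by
  unfold rhoC rho
  positivity

/-- `(2 n + 1) ρ_n ^ 2` decreases -/
theorem rhoC_anti (n : ℕ) : rhoC (n + 1) ^ 2 * (2 * (n + 1) + 1) ≤ rhoC n ^ 2 * (2 * n + 1) := by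
  rw [rhoC_succ, mul_pow, mul_assoc]
  refine mul_le_mul_of_nonneg_left ?_ (sq_nonneg _)
  rw [div_pow, div_mul_eq_mul_div, div_le_iff₀ (by positivity)]
  nlinarith [Nat.cast_nonneg (α := ℝ) n]

theorem rhoC_antitone : Antitone (fun n : ℕ => rhoC n ^ 2 * (2 * (n : ℝ) + 1)) := by
  refine antitone_nat_of_succ_le fun n => ?_
  have := rhoC_anti n
  push_cast
  exact this

theorem rhoC_sq_le (n : ℕ) : rhoC n ^ 2 ≤ 1 / (2 * n + 1) := by
  rw [le_div_iff₀ (by positivity)]
  have := rhoC_antitone (Nat.zero_le n)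
  simpa [rhoC_zero] using this

theorem le_rhoC_sq (n : ℕ) (hn : 1 ≤ n) : 1 / (4 * (n : ℝ)) ≤ rhoC n ^ 2 := by
  induction n, hn using Nat.le_induction with
  | base =>
    rw [show (1 : ℕ) = 0 + 1 from rfl, rhoC_succ, rhoC_zero]
    norm_num
  | succ n hn ih =>
    have hn' : (1 : ℝ) ≤ n := by exact_mod_cast hn
    have h0 : (0 : ℝ) < n := by linarith
    rw [rhoC_succ, mul_pow]
    have h1 : 1 / (4 * (n : ℝ)) * ((2 * n + 1) / (2 * n + 2)) ^ 2 ≤
        rhoC n ^ 2 * ((2 * n + 1) / (2 * n + 2)) ^ 2 := mul_le_mul_of_nonneg_right ih (sq_nonneg _)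
    refine le_trans ?_ h1
    rw [div_pow, div_mul_div_comm, one_mul, div_le_div_iff₀ (by positivity) (by positivity)]
    push_cast
    nlinarith [mul_pos h0 h0]

theorem rhoC_mul_le (m n : ℕ) (hm : 1 ≤ m) (hn : 1 ≤ n) :
    rhoC (m * n) ^ 2 ≤ rhoC n ^ 2 * ((2 * n + 1) / (2 * (m * n) + 1)) := by
  have h := rhoC_antitone (show n ≤ m * n from Nat.le_mul_of_pos_left n hm)
  simp only at h
  push_cast at h
  rw [mul_div_assoc', le_div_iff₀ (by positivity)]
  exact h

/-! ### binomial probabilities -/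

theorem Bin_nonneg {a : ℝ} (ha : 0 ≤ a) (ha1 : a ≤ 1) (n l : ℕ) : 0 ≤ Bin a n l := by
  unfold Bin
  have : 0 ≤ 1 - a := by linarith
  positivity

theorem Bin_sum (a : ℝ) (n : ℕ) : ∑ l ∈ range (n + 1), Bin a n l = 1 := by
  have h := add_pow a (1 - a) n
  rw [add_sub_cancel, one_pow] at h
  rw [h]
  refine sum_congr rfl fun l _ => ?_
  unfold Bin
  ring

theorem Bin_eq_zero (a : ℝ) {n l : ℕ} (h : n < l) : Bin a n l = 0 := by
  unfold Bin
  rw [Nat.choose_eq_zero_of_lt h]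
  simp

theorem Bin_succ_mul (a : ℝ) {n k : ℕ} (hk : k < n) :
    Bin a n (k + 1) * ((k + 1) * (1 - a)) = Bin a n k * ((n - k) * a) := by
  unfold Bin
  have h1 : ((n.choose (k + 1) : ℝ)) * (k + 1) = n.choose k * (n - k) := by
    have := Nat.choose_succ_right_eq n k
    have h2 : (((n.choose (k + 1)) * (k + 1) : ℕ) : ℝ) = ((n.choose k * (n - k) : ℕ) : ℝ) := by
      rw [this]
    rw [Nat.cast_mul, Nat.cast_mul, Nat.cast_sub hk.le] at h2
    push_cast at h2
    exact h2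
  have h2 : n - k = (n - (k + 1)) + 1 := by omega
  rw [h2, pow_succ, pow_succ]
  linear_combination (a ^ k * a * (1 - a) ^ (n - (k + 1)) * (1 - a)) * h1

theorem Bin_up {a : ℝ} (ha : 0 < a) (ha1 : a < 1) {n k : ℕ} (h : ((k : ℝ) + 1) ≤ (n + 1) * a) :
    Bin a n k ≤ Bin a n (k + 1) := by
  have hk : k < n := by
    by_contra hc
    have h1 : (n : ℝ) ≤ k := by exact_mod_cast not_lt.1 hc
    nlinarith
  have h1 := Bin_succ_mul a hk
  have h2 : 0 < ((k : ℝ) + 1) * (1 - a) := by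
    have : 0 < 1 - a := by linarith
    positivity
  have h3 := Bin_nonneg ha.le ha1.le n k
  have h4 : ((k : ℝ) + 1) * (1 - a) ≤ (n - k) * a := by nlinarith
  have h5 : Bin a n k * (((k : ℝ) + 1) * (1 - a)) ≤ Bin a n (k + 1) * (((k : ℝ) + 1) * (1 - a)) := by
    rw [h1]
    exact mul_le_mul_of_nonneg_left h4 h3
  exact le_of_mul_le_mul_right h5 h2

theorem Bin_down {a : ℝ} (ha : 0 < a) (ha1 : a < 1) {n k : ℕ} (h : (n + 1) * a ≤ (k : ℝ) + 1) :
    Bin a n (k + 1) ≤ Bin a n k := by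
  rcases Nat.lt_or_ge k n with hk | hk
  · have h1 := Bin_succ_mul a hk
    have h2 : 0 < ((k : ℝ) + 1) * (1 - a) := by
      have : 0 < 1 - a := by linarith
      positivity
    have h3 := Bin_nonneg ha.le ha1.le n k
    have h4 : (n - k) * a ≤ ((k : ℝ) + 1) * (1 - a) := by nlinarith
    have h5 : Bin a n (k + 1) * (((k : ℝ) + 1) * (1 - a)) ≤ Bin a n k * (((k : ℝ) + 1) * (1 - a)) := by
      rw [h1]
      exact mul_le_mul_of_nonneg_left h4 h3
    exact le_of_mul_le_mul_right h5 h2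
  · rw [Bin_eq_zero a (show n < k + 1 by omega)]
    exact Bin_nonneg ha.le ha1.le n k

theorem Bin_mode_le {a : ℝ} (ha : 0 < a) (ha1 : a < 1) {n l : ℕ} (hl : l ≤ n)
    (h1 : (l : ℝ) ≤ (n + 1) * a) (h2 : (n + 1) * a ≤ l + 1) (k : ℕ) :
    Bin a n k ≤ Bin a n l := by
  rcases Nat.le_total k l with hk | hk
  · obtain ⟨d, rfl⟩ := Nat.exists_eq_add_of_le hk
    clear h2 hl
    induction d with
    | zero => exact le_rfl
    | succ d ih =>
      have h3 : ((k + d : ℕ) : ℝ) + 1 ≤ (n + 1) * a := by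
        push_cast at h1 ⊢
        linarith
      have h4 : ((k + d : ℕ) : ℝ) ≤ (n + 1) * a := by linarith
      exact (ih h4 (Nat.le_add_right _ _)).trans (Bin_up ha ha1 h3)
  · obtain ⟨d, rfl⟩ := Nat.exists_eq_add_of_le hk
    clear hk
    induction d with
    | zero => exact le_rfl
    | succ d ih =>
      have h3 : (n + 1) * a ≤ ((l + d : ℕ) : ℝ) + 1 := by
        push_cast
        have : (0 : ℝ) ≤ d := Nat.cast_nonneg _
        linarith
      exact (Bin_down ha ha1 h3).trans ih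

theorem Bin_succ_zero (a : ℝ) (n : ℕ) : Bin a (n + 1) 0 = (1 - a) * Bin a n 0 := by
  unfold Bin
  simp [pow_succ]
  ring

theorem Bin_succ_succ (a : ℝ) (n k : ℕ) :
    Bin a (n + 1) (k + 1) = a * Bin a n k + (1 - a) * Bin a n (k + 1) := by
  rcases Nat.lt_or_ge k n with hk | hk
  · unfold Bin
    have h2 : n - k = (n - (k + 1)) + 1 := by omega
    have h3 : n + 1 - (k + 1) = (n - (k + 1)) + 1 := by omega
    rw [Nat.choose_succ_succ', h2, h3]
    push_cast
    ring
  · rw [Bin_eq_zero a (show n < k + 1 by omega)]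
    unfold Bin
    have h3 : n + 1 - (k + 1) = n - k := by omega
    have h4 : n.choose (k + 1) = 0 := Nat.choose_eq_zero_of_lt (by omega)
    rw [Nat.choose_succ_succ', h3, h4]
    push_cast
    ring

theorem Bin_later_le {a : ℝ} (ha : 0 < a) (ha1 : a < 1) {n l : ℕ}
    (hmode : ∀ k, Bin a n k ≤ Bin a n l) {n' : ℕ} (hn : n ≤ n') (k : ℕ) :
    Bin a n' k ≤ Bin a n l := by
  induction n', hn using Nat.le_induction generalizing k with
  | base => exact hmode k
  | succ n' hn ih =>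
    have h1 : 0 < 1 - a := by linarith
    cases k with
    | zero =>
      rw [Bin_succ_zero]
      have h2 := Bin_nonneg ha.le ha1.le n' 0
      have h3 := ih 0
      nlinarith
    | succ k =>
      rw [Bin_succ_succ]
      have h2 := ih k
      have h3 := ih (k + 1)
      nlinarith [mul_le_mul_of_nonneg_left h2 ha.le, mul_le_mul_of_nonneg_left h3 h1.le]

theorem Bin_mode_ge {a : ℝ} (ha : 0 < a) (ha1 : a < 1) {n l : ℕ}
    (hmode : ∀ k, Bin a n k ≤ Bin a n l) : 1 / ((n : ℝ) + 1) ≤ Bin a n l := by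
  have h := Bin_sum a n
  have h1 : ∑ k ∈ range (n + 1), Bin a n k ≤ ∑ _k ∈ range (n + 1), Bin a n l :=
    sum_le_sum fun k _ => hmode k
  rw [h, sum_const, card_range, nsmul_eq_mul] at h1
  push_cast at h1
  rw [div_le_iff₀ (by positivity)]
  linarith

end Pool.Agent.Helper92.HRT
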