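import Mathlib
import Pool.Agent.Helper26.RadSum

set_option autoImplicit false

/-!
Three self-contained pieces of the power saving theorem: a bound for the first row of the matrix
through three points, a polynomial root count, and the summation over dyadic blocks.
-/

namespace Pool.Agent.Helper94.Abc

/-- Lower bound for the distance of two fractions, in terms of the first denominator. -/
lemma frac_gap {z1 w1 z2 w2 : ℝ} (hw1 : 0 < w1) (hw2 : 0 < w2) (hw : w2 ≤ 4 * w1)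
    (d : 1 ≤ |z1 * w2 - z2 * w1|) : 1 / (4 * w1 ^ 2) ≤ |z1 / w1 - z2 / w2| := by
  have h1 : z1 / w1 - z2 / w2 = (z1 * w2 - z2 * w1) / (w1 * w2) := by
    field_simp
  rw [h1, abs_div, abs_of_pos (mul_pos hw1 hw2)]
  rw [div_le_div_iff₀ (by positivity) (by positivity)]
  have h2 : w1 * w2 ≤ 4 * w1 ^ 2 := by
    calc w1 * w2 ≤ w1 * (4 * w1) := mul_le_mul_of_nonneg_left hw hw1.le
      _ = 4 * w1 ^ 2 := by ring
  have h3 := mul_le_mul_of_nonneg_right d (show (0:ℝ) ≤ 4 * w1 ^ 2 by positivity)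
  linarith

/-- Bound for the error term of the first point. -/
lemma psi_bound {z1 w1 z2 w2 z3 w3 a g G : ℝ} (hw1 : 0 < w1) (hw2 : 0 < w2) (hw3 : 0 < w3)
    (h2 : w2 ≤ 4 * w1) (h3 : w3 ≤ 4 * w1) (hg : |g| ≤ G)
    (d2 : 1 ≤ |z1 * w2 - z2 * w1|) (d3 : 1 ≤ |z1 * w3 - z3 * w1|) :
    |a * g / w1 ^ 4| ≤ 16 * |a| * G * (|z1 / w1 - z2 / w2| * |z1 / w1 - z3 / w3|) := by
  have hG : 0 ≤ G := (abs_nonneg g).trans hg
  have k2 := frac_gap hw1 hw2 h2 d2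
  have k3 := frac_gap hw1 hw3 h3 d3
  have k : 1 / (4 * w1 ^ 2) * (1 / (4 * w1 ^ 2))
      ≤ |z1 / w1 - z2 / w2| * |z1 / w1 - z3 / w3| :=
    mul_le_mul k2 k3 (by positivity) (abs_nonneg _)
  have e : |a * g / w1 ^ 4| = |a| * |g| * (1 / w1 ^ 4) := by
    rw [abs_div, abs_mul, abs_of_pos (show (0:ℝ) < w1 ^ 4 by positivity)]
    ring
  rw [e]
  have e2 : 1 / w1 ^ 4 = 16 * (1 / (4 * w1 ^ 2) * (1 / (4 * w1 ^ 2))) := by
    field_simp
    norm_num
  calc |a| * |g| * (1 / w1 ^ 4) ≤ |a| * G * (1 / w1 ^ 4) := by gcongr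
    _ = |a| * G * (16 * (1 / (4 * w1 ^ 2) * (1 / (4 * w1 ^ 2)))) := by rw [e2]
    _ ≤ |a| * G * (16 * (|z1 / w1 - z2 / w2| * |z1 / w1 - z3 / w3|)) := by gcongr
    _ = 16 * |a| * G * (|z1 / w1 - z2 / w2| * |z1 / w1 - z3 / w3|) := by ring

/-- PIECE (S): bound for the first row of the matrix from three points. -/
theorem matrix_bound_row {x1 y1 z1 w1 x2 y2 z2 w2 x3 y3 z3 w3 A B a p q r s g1 g2 g3 G Λ : ℝ}
    (hx1 : 0 < x1) (hy1 : 0 < y1) (hz1 : 0 < z1) (hw1 : 0 < w1)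
    (hx2 : 0 < x2) (hy2 : 0 < y2) (hz2 : 0 < z2) (hw2 : 0 < w2)
    (hx3 : 0 < x3) (hy3 : 0 < y3) (hz3 : 0 < z3) (hw3 : 0 < w3)
    (hA : 1 ≤ A) (hB : 1 ≤ B)
    (e1 : B * y1 * w1 ^ 3 = A * x1 * z1 ^ 3 + a) (e2 : B * y2 * w2 ^ 3 = A * x2 * z2 ^ 3 + a)
    (e3 : B * y3 * w3 ^ 3 = A * x3 * z3 ^ 3 + a)
    (p1 : p * z1 + q * w1 = g1 * x1) (p2 : p * z2 + q * w2 = g2 * x2)
    (p3 : p * z3 + q * w3 = g3 * x3)
    (r1 : r * z1 + s * w1 = g1 * y1) (r2 : r * z2 + s * w2 = g2 * y2)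
    (r3 : r * z3 + s * w3 = g3 * y3)
    (hg1 : |g1| ≤ G) (hg2 : |g2| ≤ G) (hg3 : |g3| ≤ G)
    (d12 : 1 ≤ |z1 * w2 - z2 * w1|) (d13 : 1 ≤ |z1 * w3 - z3 * w1|)
    (d23 : 1 ≤ |z2 * w3 - z3 * w2|)
    -- comparability of the three points
    (hww : w1 ≤ 4 * w2 ∧ w2 ≤ 4 * w1 ∧ w1 ≤ 4 * w3 ∧ w3 ≤ 4 * w1 ∧ w2 ≤ 4 * w3 ∧ w3 ≤ 4 * w2)
    (hzz : z1 ≤ 4 * z2 ∧ z2 ≤ 4 * z1 ∧ z1 ≤ 4 * z3 ∧ z3 ≤ 4 * z1 ∧ z2 ≤ 4 * z3 ∧ z3 ≤ 4 * z2)
    (hρ : z1 * w2 ≤ 2 * (z2 * w1) ∧ z2 * w1 ≤ 2 * (z1 * w2) ∧ z1 * w3 ≤ 2 * (z3 * w1) ∧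
      z3 * w1 ≤ 2 * (z1 * w3) ∧ z2 * w3 ≤ 2 * (z3 * w2) ∧ z3 * w2 ≤ 2 * (z2 * w3))
    -- size bounds
    (hxz : x3 ≤ Λ * z3) (hxw : x3 ≤ Λ * w3) (hwz : w1 ≤ Λ * A * z1)
    (hwz2 : w1 ^ 2 ≤ Λ * A * z1 ^ 2) :
    |p| ≤ 200 * G * (1 + |a|) * Λ ∧ |q| ≤ 200 * G * (1 + |a|) * Λ := by
  obtain ⟨hw12, hw21, hw13, hw31, hw23, hw32⟩ := hww
  obtain ⟨-, hr21, -, hr31, -, -⟩ := hρ
  have hG : 0 ≤ G := (abs_nonneg g1).trans hg1
  -- fractions
  set ρ1 := z1 / w1 with hρ1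
  set ρ2 := z2 / w2 with hρ2
  set ρ3 := z3 / w3 with hρ3
  have hρ1p : 0 < ρ1 := by positivity
  have hρ2p : 0 < ρ2 := by positivity
  have hρ3p : 0 < ρ3 := by positivity
  have z1e : z1 = ρ1 * w1 := by rw [hρ1]; field_simp
  have z2e : z2 = ρ2 * w2 := by rw [hρ2]; field_simp
  have z3e : z3 = ρ3 * w3 := by rw [hρ3]; field_simp
  have h21 : ρ2 ≤ 2 * ρ1 := by
    rw [hρ1, hρ2, div_le_iff₀ hw2]
    have : 2 * (z1 / w1) * w2 = (2 * (z1 * w2)) / w1 := by ring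
    rw [this, le_div_iff₀ hw1]
    exact hr21
  have h31 : ρ3 ≤ 2 * ρ1 := by
    rw [hρ1, hρ3, div_le_iff₀ hw3]
    have : 2 * (z1 / w1) * w3 = (2 * (z1 * w3)) / w1 := by ring
    rw [this, le_div_iff₀ hw1]
    exact hr31
  -- error terms
  have s1 := psi_bound (a := a) hw1 hw2 hw3 hw21 hw31 hg1 d12 d13
  have s2 := psi_bound (a := a) hw2 hw1 hw3 hw12 hw32 hg2 (by rwa [abs_sub_comm]) d23
  have s3 := psi_bound (a := a) hw3 hw1 hw2 hw13 hw23 hg3 (by rwa [abs_sub_comm])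
    (by rwa [abs_sub_comm])
  rw [← hρ1, ← hρ2, ← hρ3] at s1 s2 s3
  set ψ1 := a * g1 / w1 ^ 4 with hψ1
  set ψ2 := a * g2 / w2 ^ 4 with hψ2
  set ψ3 := a * g3 / w3 ^ 4 with hψ3
  have main : ∀ {x y z w g ρ ψ : ℝ}, 0 < w → z = ρ * w → B * y * w ^ 3 = A * x * z ^ 3 + a →
      p * z + q * w = g * x → r * z + s * w = g * y → ψ = a * g / w ^ 4 →
      B * (r * ρ + s) = A * ρ ^ 3 * (p * ρ + q) + ψ := by
    intro x y z w g ρ ψ hw hz h1 h2 h3 h4
    have hψ : ψ * w ^ 4 = a * g := by rw [h4]; field_simp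
    have key : (B * (r * ρ + s) - (A * ρ ^ 3 * (p * ρ + q) + ψ)) * w ^ 4 = 0 := by
      subst hz
      linear_combination g * h1 + B * w ^ 3 * h3 - A * ρ ^ 3 * w ^ 3 * h2 - hψ
    have hw4 : w ^ 4 ≠ 0 := by positivity
    have := (mul_eq_zero.mp key).resolve_right hw4
    linarith
  have E1 := main hw1 z1e e1 p1 r1 hψ1
  have E2 := main hw2 z2e e2 p2 r2 hψ2
  have E3 := main hw3 z3e e3 p3 r3 hψ3
  -- elimination
  set L3 := p * ρ3 + q with hL3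
  set T := A * ((ρ1 + ρ2 + ρ3) * L3 + (ρ1 ^ 2 + ρ1 * ρ2 + ρ2 ^ 2) * p) with hT
  set V := (ρ1 - ρ2) * (ρ1 - ρ3) * (ρ2 - ρ3) with hV
  have hne12 : ρ1 - ρ2 ≠ 0 := by
    intro h
    have := frac_gap hw1 hw2 hw21 d12
    rw [← hρ1, ← hρ2, h, abs_zero] at this
    have h' : (0:ℝ) < 1 / (4 * w1 ^ 2) := by positivity
    linarith
  have hne13 : ρ1 - ρ3 ≠ 0 := by
    intro h
    have := frac_gap hw1 hw3 hw31 d13
    rw [← hρ1, ← hρ3, h, abs_zero] at this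
    have h' : (0:ℝ) < 1 / (4 * w1 ^ 2) := by positivity
    linarith
  have hne23 : ρ2 - ρ3 ≠ 0 := by
    intro h
    have := frac_gap hw2 hw3 hw32 d23
    rw [← hρ2, ← hρ3, h, abs_zero] at this
    have h' : (0:ℝ) < 1 / (4 * w2 ^ 2) := by positivity
    linarith
  have hVp : 0 < |V| := by
    rw [abs_pos, hV]
    exact mul_ne_zero (mul_ne_zero hne12 hne13) hne23
  have hE : T * V = -(ψ1 * (ρ2 - ρ3) - ψ2 * (ρ1 - ρ3) + ψ3 * (ρ1 - ρ2)) := by
    rw [hT, hV, hL3]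
    rw [hL3] at E3
    linear_combination (ρ2 - ρ3) * (-E1) + (ρ1 - ρ3) * E2 - (ρ1 - ρ2) * E3
  have hTV : |T| * |V| ≤ 48 * |a| * G * |V| := by
    rw [← abs_mul, hE, abs_neg]
    have b1 : |ψ1 * (ρ2 - ρ3)| ≤ 16 * |a| * G * |V| := by
      rw [abs_mul, hV, abs_mul, abs_mul]
      calc |ψ1| * |ρ2 - ρ3| ≤ 16 * |a| * G * (|ρ1 - ρ2| * |ρ1 - ρ3|) * |ρ2 - ρ3| := by gcongr
        _ = _ := by ring
    have b2 : |ψ2 * (ρ1 - ρ3)| ≤ 16 * |a| * G * |V| := by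
      rw [abs_mul, hV, abs_mul, abs_mul]
      rw [abs_sub_comm ρ2 ρ1] at s2
      calc |ψ2| * |ρ1 - ρ3| ≤ 16 * |a| * G * (|ρ1 - ρ2| * |ρ2 - ρ3|) * |ρ1 - ρ3| := by gcongr
        _ = _ := by ring
    have b3 : |ψ3 * (ρ1 - ρ2)| ≤ 16 * |a| * G * |V| := by
      rw [abs_mul, hV, abs_mul, abs_mul]
      rw [abs_sub_comm ρ3 ρ1, abs_sub_comm ρ3 ρ2] at s3
      calc |ψ3| * |ρ1 - ρ2| ≤ 16 * |a| * G * (|ρ1 - ρ3| * |ρ2 - ρ3|) * |ρ1 - ρ2| := by gcongr
        _ = _ := by ring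
    have t1 := abs_add_le (ψ1 * (ρ2 - ρ3) - ψ2 * (ρ1 - ρ3)) (ψ3 * (ρ1 - ρ2))
    have t2 := abs_sub (ψ1 * (ρ2 - ρ3)) (ψ2 * (ρ1 - ρ3))
    linarith
  have hTb : |T| ≤ 48 * |a| * G := le_of_mul_le_mul_right hTV hVp
  -- bound for L3
  have hL3e : L3 * w3 = g3 * x3 := by
    rw [hL3, ← p3, z3e]; ring
  have hL3b : |L3| * w3 ≤ G * x3 := by
    have : |L3| * w3 = |g3| * x3 := by
      have h1 : |L3 * w3| = |g3 * x3| := by rw [hL3e]
      rwa [abs_mul, abs_mul, abs_of_pos hw3, abs_of_pos hx3] at h1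
    rw [this]
    gcongr
  have hL3a : |L3| ≤ G * Λ := by
    have : |L3| * w3 ≤ G * Λ * w3 := by
      calc |L3| * w3 ≤ G * x3 := hL3b
        _ ≤ G * (Λ * w3) := by gcongr
        _ = G * Λ * w3 := by ring
    exact le_of_mul_le_mul_right this hw3
  have hL3c : |L3| ≤ 2 * G * Λ * ρ1 := by
    have h1 : |L3| * w3 ≤ G * Λ * z3 := by
      calc |L3| * w3 ≤ G * x3 := hL3b
        _ ≤ G * (Λ * z3) := by gcongr
        _ = G * Λ * z3 := by ring
    have hΛ : 0 ≤ Λ := by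
      by_contra hneg
      push Not at hneg
      have : Λ * z3 < 0 := mul_neg_of_neg_of_pos hneg hz3
      linarith
    have h2 : |L3| ≤ G * Λ * ρ3 := by
      have : |L3| * w3 ≤ G * Λ * ρ3 * w3 := by
        rw [z3e] at h1
        linarith [h1, mul_assoc (G * Λ) ρ3 w3]
      exact le_of_mul_le_mul_right this hw3
    have h3 : G * Λ * ρ3 ≤ G * Λ * (2 * ρ1) := by gcongr
    linarith
  have hΛ : 0 ≤ Λ := by
    by_contra hneg
    push Not at hneg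
    have : Λ * z3 < 0 := mul_neg_of_neg_of_pos hneg hz3
    linarith
  have hAp : (0:ℝ) < A := by linarith
  have hΛ1 : 1 ≤ Λ * A * ρ1 := by
    rw [hρ1]
    have : Λ * A * (z1 / w1) = (Λ * A * z1) / w1 := by ring
    rw [this, le_div_iff₀ hw1]
    linarith
  have hΛ2 : 1 ≤ Λ * A * ρ1 ^ 2 := by
    rw [hρ1]
    have : Λ * A * (z1 / w1) ^ 2 = (Λ * A * z1 ^ 2) / w1 ^ 2 := by ring
    rw [this, le_div_iff₀ (by positivity)]
    linarith
  -- A |p| ρ1^2 ≤ 48 |a| G + 5 A ρ1 |L3|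
  have hpe : A * |(ρ1 ^ 2 + ρ1 * ρ2 + ρ2 ^ 2) * p| ≤ 48 * |a| * G + A * (5 * ρ1 * |L3|) := by
    have h1 : A * |(ρ1 + ρ2 + ρ3) * L3 + (ρ1 ^ 2 + ρ1 * ρ2 + ρ2 ^ 2) * p| ≤ 48 * |a| * G := by
      rw [hT, abs_mul, abs_of_pos hAp] at hTb
      exact hTb
    have h2 : |(ρ1 + ρ2 + ρ3) * L3| ≤ 5 * ρ1 * |L3| := by
      rw [abs_mul, abs_of_pos (by positivity : (0:ℝ) < ρ1 + ρ2 + ρ3)]
      have : ρ1 + ρ2 + ρ3 ≤ 5 * ρ1 := by linarith
      gcongr
    have h3 : (ρ1 ^ 2 + ρ1 * ρ2 + ρ2 ^ 2) * p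
        = ((ρ1 + ρ2 + ρ3) * L3 + (ρ1 ^ 2 + ρ1 * ρ2 + ρ2 ^ 2) * p) - (ρ1 + ρ2 + ρ3) * L3 := by ring
    rw [h3]
    have h4 := abs_sub ((ρ1 + ρ2 + ρ3) * L3 + (ρ1 ^ 2 + ρ1 * ρ2 + ρ2 ^ 2) * p) ((ρ1 + ρ2 + ρ3) * L3)
    have h5 := mul_le_mul_of_nonneg_left (h4.trans (add_le_add_right h2 _)) hAp.le
    linarith
  have hpr : A * (|p| * ρ1 ^ 2) ≤ 48 * |a| * G + A * (5 * ρ1 * |L3|) := by
    rw [abs_mul, abs_of_pos (by positivity : (0:ℝ) < ρ1 ^ 2 + ρ1 * ρ2 + ρ2 ^ 2)] at hpe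
    have : ρ1 ^ 2 * |p| ≤ (ρ1 ^ 2 + ρ1 * ρ2 + ρ2 ^ 2) * |p| := by
      apply mul_le_mul_of_nonneg_right _ (abs_nonneg p)
      have h1 := mul_pos hρ1p hρ2p
      have h2 : 0 < ρ2 ^ 2 := by positivity
      linarith
    have h2 := mul_le_mul_of_nonneg_left this hAp.le
    linarith
  have hpr1 : |p| * ρ1 ≤ 48 * |a| * G * Λ + 5 * |L3| := by
    have h1 : |p| * ρ1 * (A * ρ1) ≤ (48 * |a| * G * Λ + 5 * |L3|) * (A * ρ1) := by
      have h2 : 48 * |a| * G * 1 ≤ 48 * |a| * G * (Λ * A * ρ1) := by gcongr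
      linarith
    exact le_of_mul_le_mul_right h1 (mul_pos hAp hρ1p)
  have hpr2 : |p| ≤ 48 * |a| * G * Λ + 10 * G * Λ := by
    have h1 : |p| * (A * ρ1 ^ 2) ≤ (48 * |a| * G * Λ + 10 * G * Λ) * (A * ρ1 ^ 2) := by
      have h2 : 48 * |a| * G * 1 ≤ 48 * |a| * G * (Λ * A * ρ1 ^ 2) := by gcongr
      have h3 : A * (5 * ρ1 * |L3|) ≤ A * (5 * ρ1 * (2 * G * Λ * ρ1)) := by gcongr
      linarith
    exact le_of_mul_le_mul_right h1 (by positivity)
  have haG : 0 ≤ |a| * G * Λ := by positivity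
  have hGL : 0 ≤ G * Λ := by positivity
  have e200 : 200 * G * (1 + |a|) * Λ = 200 * (G * Λ) + 200 * (|a| * G * Λ) := by ring
  rw [e200]
  constructor
  · linarith
  · have hq : q = L3 - p * ρ3 := by rw [hL3]; ring
    have h1 : |q| ≤ |L3| + |p| * ρ3 := by
      rw [hq]
      have := abs_sub L3 (p * ρ3)
      rw [abs_mul p, abs_of_pos hρ3p] at this
      exact this
    have h2 : |p| * ρ3 ≤ |p| * (2 * ρ1) := by gcongr
    linarith

lemma coeff_four_aux (c4 c3 c1 c0 : ℤ) : (Polynomial.C c4 * Polynomial.X ^ 4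
    + Polynomial.C c3 * Polynomial.X ^ 3 + Polynomial.C c1 * Polynomial.X
    + Polynomial.C c0).coeff 4 = c4 := by
  have h1 : (Polynomial.C c1 * Polynomial.X : Polynomial ℤ).coeff 4 = 0 := by
    rw [Polynomial.coeff_C_mul, Polynomial.coeff_X]; simp
  have h0 : (Polynomial.C c0 : Polynomial ℤ).coeff 4 = 0 := by
    rw [Polynomial.coeff_C]; simp
  have h3 : (Polynomial.C c3 * Polynomial.X ^ 3 : Polynomial ℤ).coeff 4 = 0 := by
    rw [Polynomial.coeff_C_mul, Polynomial.coeff_X_pow]; simp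
  have h4 : (Polynomial.C c4 * Polynomial.X ^ 4 : Polynomial ℤ).coeff 4 = c4 := by
    rw [Polynomial.coeff_C_mul, Polynomial.coeff_X_pow]; simp
  rw [Polynomial.coeff_add, Polynomial.coeff_add, Polynomial.coeff_add, h1, h0, h3, h4]
  ring

lemma coeff_three_aux (c4 c3 c1 c0 : ℤ) : (Polynomial.C c4 * Polynomial.X ^ 4
    + Polynomial.C c3 * Polynomial.X ^ 3 + Polynomial.C c1 * Polynomial.X
    + Polynomial.C c0).coeff 3 = c3 := by
  have h1 : (Polynomial.C c1 * Polynomial.X : Polynomial ℤ).coeff 3 = 0 := by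
    rw [Polynomial.coeff_C_mul, Polynomial.coeff_X]; simp
  have h0 : (Polynomial.C c0 : Polynomial ℤ).coeff 3 = 0 := by
    rw [Polynomial.coeff_C]; simp
  have h3 : (Polynomial.C c3 * Polynomial.X ^ 3 : Polynomial ℤ).coeff 3 = c3 := by
    rw [Polynomial.coeff_C_mul, Polynomial.coeff_X_pow]; simp
  have h4 : (Polynomial.C c4 * Polynomial.X ^ 4 : Polynomial ℤ).coeff 3 = 0 := by
    rw [Polynomial.coeff_C_mul, Polynomial.coeff_X_pow]; simp
  rw [Polynomial.coeff_add, Polynomial.coeff_add, Polynomial.coeff_add, h1, h0, h3, h4]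
  ring

/-- PIECE (B): counting the points lying on a matrix with small entries. -/
theorem bad_count (S : Finset ℕ) (x y z w : ℕ → ℤ) (A B a : ℤ) (H G W : ℕ) (hA : A ≠ 0)
    (hB : B ≠ 0)
    (hw : ∀ n ∈ S, 0 < w n ∧ w n ≤ W)
    (heq : ∀ n ∈ S, B * y n * w n ^ 3 = A * x n * z n ^ 3 + a)
    (hn : ∀ n ∈ S, (n : ℤ) = A * x n * z n ^ 3)
    (hbad : ∀ n ∈ S, ∃ p q r s g : ℤ, |p| ≤ H ∧ |q| ≤ H ∧ |r| ≤ H ∧ |s| ≤ H ∧ |g| ≤ G ∧ g ≠ 0 ∧
      p * s - q * r ≠ 0 ∧ p * z n + q * w n = g * x n ∧ r * z n + s * w n = g * y n) :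
    S.card ≤ 4 * ((2 * H + 1) ^ 4 * (2 * G + 1) * W) := by
  classical
  choose! p q r s g hp hq hr hs hg hg0 hdet h1 h2 using hbad
  let f : ℕ → (ℤ × ℤ × ℤ × ℤ) × ℤ × ℤ := fun n => ((p n, q n, r n, s n), g n, w n)
  let I : Finset ℤ := Finset.Icc (-(H : ℤ)) H
  let T : Finset ((ℤ × ℤ × ℤ × ℤ) × ℤ × ℤ) :=
    (I ×ˢ I ×ˢ I ×ˢ I) ×ˢ (Finset.Icc (-(G : ℤ)) G) ×ˢ (Finset.Icc 1 (W : ℤ))
  have hmaps : ∀ n ∈ S, f n ∈ T := by
    intro n hn'
    have hw' := hw n hn'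
    simp only [f, T, I, Finset.mem_product, Finset.mem_Icc]
    exact ⟨⟨abs_le.mp (hp n hn'), abs_le.mp (hq n hn'), abs_le.mp (hr n hn'),
      abs_le.mp (hs n hn')⟩, abs_le.mp (hg n hn'), by omega, hw'.2⟩
  have hI : I.card = 2 * H + 1 := by
    simp only [I, Int.card_Icc]
    omega
  have hT : T.card = (2 * H + 1) ^ 4 * ((2 * G + 1) * W) := by
    simp only [T, Finset.card_product, hI]
    rw [Int.card_Icc, Int.card_Icc]
    have e1 : ((G : ℤ) + 1 - -(G : ℤ)).toNat = 2 * G + 1 := by omega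
    have e2 : ((W : ℤ) + 1 - 1).toNat = W := by omega
    rw [e1, e2]
    ring
  have hfib : ∀ b ∈ T, (S.filter (fun n => f n = b)).card ≤ 4 := by
    rintro ⟨⟨P, Q, R, U⟩, g0, w0⟩ hb
    rcases (S.filter (fun n => f n = ((P, Q, R, U), g0, w0))).eq_empty_or_nonempty with h0 | ⟨n0, hn0⟩
    · rw [h0]; simp
    -- facts about elements of the fibre
    have hfact : ∀ n ∈ S.filter (fun n => f n = ((P, Q, R, U), g0, w0)),
        n ∈ S ∧ p n = P ∧ q n = Q ∧ r n = R ∧ s n = U ∧ g n = g0 ∧ w n = w0 := by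
      intro n hn'
      rw [Finset.mem_filter] at hn'
      obtain ⟨hnS, he⟩ := hn'
      simp only [f, Prod.mk.injEq] at he
      exact ⟨hnS, he.1.1, he.1.2.1, he.1.2.2.1, he.1.2.2.2, he.2.1, he.2.2⟩
    obtain ⟨hn0S, hP, hQ, hR, hU, hg0', hw0⟩ := hfact n0 hn0
    have hw0pos : 0 < w0 := by rw [← hw0]; exact (hw n0 hn0S).1
    have hg0ne : g0 ≠ 0 := by rw [← hg0']; exact hg0 n0 hn0S
    have hdet0 : P * U - Q * R ≠ 0 := by
      rw [← hP, ← hQ, ← hR, ← hU]; exact hdet n0 hn0S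
    -- the polynomial
    let F : Polynomial ℤ :=
      Polynomial.C (-(A * P)) * Polynomial.X ^ 4 + Polynomial.C (-(A * Q * w0)) * Polynomial.X ^ 3
        + Polynomial.C (B * R * w0 ^ 3) * Polynomial.X + Polynomial.C (B * U * w0 ^ 4 - g0 * a)
    have hF4 : F.coeff 4 = -(A * P) := coeff_four_aux _ _ _ _
    have hF3 : F.coeff 3 = -(A * Q * w0) := coeff_three_aux _ _ _ _
    have hF0 : F ≠ 0 := by
      intro h
      rw [h, Polynomial.coeff_zero] at hF4 hF3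
      have hP0 : P = 0 := by
        have : A * P = 0 := by linarith
        exact (mul_eq_zero.mp this).resolve_left hA
      have hQ0 : Q = 0 := by
        have : A * Q * w0 = 0 := by linarith
        have := (mul_eq_zero.mp this).resolve_right hw0pos.ne'
        exact (mul_eq_zero.mp this).resolve_left hA
      apply hdet0
      rw [hP0, hQ0]
      ring
    have hdeg : F.natDegree ≤ 4 := by
      simp only [F]
      compute_degree
    have hroots : F.roots.toFinset.card ≤ 4 :=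
      (Multiset.toFinset_card_le _).trans ((Polynomial.card_roots' F).trans hdeg)
    refine le_trans ?_ hroots
    apply Finset.card_le_card_of_injOn z
    · intro n hn'
      obtain ⟨hnS, hP', hQ', hR', hU', hg', hw'⟩ := hfact n hn'
      rw [Finset.mem_coe, Multiset.mem_toFinset, Polynomial.mem_roots hF0, Polynomial.IsRoot.def]
      have a1 := h1 n hnS
      have a2 := h2 n hnS
      have a3 := heq n hnS
      rw [hP', hQ', hg', hw'] at a1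
      rw [hR', hU', hg', hw'] at a2
      rw [hw'] at a3
      simp only [F, Polynomial.eval_add, Polynomial.eval_mul, Polynomial.eval_C,
        Polynomial.eval_pow, Polynomial.eval_X]
      linear_combination g0 * a3 + B * w0 ^ 3 * a2 - A * z n ^ 3 * a1
    · intro n hn' m hm' hzz
      obtain ⟨hnS, hP', hQ', hR', hU', hg', hw'⟩ := hfact n hn'
      obtain ⟨hmS, hP2, hQ2, hR2, hU2, hg2, hw2⟩ := hfact m hm'
      have a1 := h1 n hnS
      have a2 := h1 m hmS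
      rw [hP', hQ', hg', hw'] at a1
      rw [hP2, hQ2, hg2, hw2, ← hzz] at a2
      have hxx : x n = x m := by
        have : g0 * x n = g0 * x m := by rw [← a1, ← a2]
        exact mul_left_cancel₀ hg0ne this
      have b1 := hn n hnS
      have b2 := hn m hmS
      rw [hxx, hzz] at b1
      have : (n : ℤ) = m := by rw [b1, b2]
      exact_mod_cast this
  have := Finset.card_le_mul_card_image_of_maps_to hmaps 4 hfib
  rw [hT] at this
  linarith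

open Pool.Agent.Helper26.RadSum (rad) in
/-- The product of the primes dividing `a n (n + a)` is at least `rad n * rad (n + a)`. -/
lemma rad_mul_rad_le {a n : ℕ} (ha : 0 < a) (hn : 0 < n) (hc : Nat.Coprime a n) :
    rad n * rad (a + n) ≤ ∏ p ∈ (a * n * (a + n)).primeFactors, p := by
  have h1 : Nat.Coprime n (a + n) := by
    rw [Nat.coprime_add_self_right]
    exact hc.symm
  rw [← Pool.Agent.Helper26.RadSum.rad_mul_of_coprime h1]
  unfold rad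
  apply Finset.prod_le_prod_of_subset_of_one_le'
  · apply Nat.primeFactors_mono
    · exact ⟨a, by ring⟩
    · positivity
  · intro p hp _
    exact (Nat.prime_of_mem_primeFactors hp).one_le

open Pool.Agent.Helper26.RadSum (rad) in
/-- PIECE (F): from blocks to the final count. -/
theorem final_of_block (δ : ℝ) (hδ0 : 0 < δ) (hδ : δ ≤ 1 / 100)
    (h : ∃ N0 : ℕ, ∀ N : ℕ, N0 ≤ N → ∀ a : ℕ, 1 ≤ a → (a : ℝ) ≤ ((2 * N : ℕ) : ℝ) ^ δ →
      ((((Finset.Icc 1 (2 * N)).filter (fun n => Nat.Coprime n a ∧ N < n + a ∧ n + a ≤ 2 * N ∧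
        (rad n : ℝ) * rad (n + a) ≤ ((2 * N : ℕ) : ℝ) ^ (1 + δ))).card : ℕ) : ℝ) ≤
          (N : ℝ) ^ (1 / 2 - 2 * δ)) :
    ∃ C : ℝ, ∀ X : ℕ,
      ((((Finset.Icc 1 X ×ˢ Finset.Icc 1 X).filter (fun t : ℕ × ℕ => Nat.Coprime t.1 t.2 ∧
        t.1 + t.2 ≤ X ∧ (t.1 : ℝ) ≤ ((t.1 + t.2 : ℕ) : ℝ) ^ δ ∧
        ((∏ p ∈ (t.1 * t.2 * (t.1 + t.2)).primeFactors, p : ℕ) : ℝ) ≤
          ((t.1 + t.2 : ℕ) : ℝ) ^ (1 + δ))).card : ℕ) : ℝ) ≤ C * (X : ℝ) ^ (1 / 2 - δ) := by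
  obtain ⟨N0, h⟩ := h
  let G : ℕ → Finset (ℕ × ℕ) := fun X =>
    (Finset.Icc 1 X ×ˢ Finset.Icc 1 X).filter (fun t : ℕ × ℕ => Nat.Coprime t.1 t.2 ∧
        t.1 + t.2 ≤ X ∧ (t.1 : ℝ) ≤ ((t.1 + t.2 : ℕ) : ℝ) ^ δ ∧
        ((∏ p ∈ (t.1 * t.2 * (t.1 + t.2)).primeFactors, p : ℕ) : ℝ) ≤
          ((t.1 + t.2 : ℕ) : ℝ) ^ (1 + δ))
  have hG : ∀ X, G X = (Finset.Icc 1 X ×ˢ Finset.Icc 1 X).filter
      (fun t : ℕ × ℕ => Nat.Coprime t.1 t.2 ∧
        t.1 + t.2 ≤ X ∧ (t.1 : ℝ) ≤ ((t.1 + t.2 : ℕ) : ℝ) ^ δ ∧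
        ((∏ p ∈ (t.1 * t.2 * (t.1 + t.2)).primeFactors, p : ℕ) : ℝ) ≤
          ((t.1 + t.2 : ℕ) : ℝ) ^ (1 + δ)) := fun X => rfl
  have hmem : ∀ X t, t ∈ G X ↔ (1 ≤ t.1 ∧ 1 ≤ t.2 ∧ Nat.Coprime t.1 t.2 ∧
        t.1 + t.2 ≤ X ∧ (t.1 : ℝ) ≤ ((t.1 + t.2 : ℕ) : ℝ) ^ δ ∧
        ((∏ p ∈ (t.1 * t.2 * (t.1 + t.2)).primeFactors, p : ℕ) : ℝ) ≤
          ((t.1 + t.2 : ℕ) : ℝ) ^ (1 + δ)) := by
    intro X t
    rw [hG, Finset.mem_filter, Finset.mem_product, Finset.mem_Icc, Finset.mem_Icc]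
    constructor
    · rintro ⟨⟨⟨h1, -⟩, h2, -⟩, h3⟩
      exact ⟨h1, h2, h3⟩
    · rintro ⟨h1, h2, h3, h4, h5⟩
      exact ⟨⟨⟨h1, by omega⟩, h2, by omega⟩, h3, h4, h5⟩
  have hmono : ∀ X Y, X ≤ Y → (G X).card ≤ (G Y).card := by
    intro X Y hXY
    apply Finset.card_le_card
    intro t ht
    rw [hmem] at ht ⊢
    exact ⟨ht.1, ht.2.1, ht.2.2.1, ht.2.2.2.1.trans hXY, ht.2.2.2.2⟩
  -- the block estimate
  have hblock : ∀ N : ℕ, N0 ≤ N → 1 ≤ N →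
      ((G (2 * N)).card : ℝ) ≤ (G N).card + 2 * (N : ℝ) ^ (1 / 2 - δ) := by
    intro N hN hN1
    set M := ⌊((2 * N : ℕ) : ℝ) ^ δ⌋₊ with hM
    have hNr : (1 : ℝ) ≤ N := by exact_mod_cast hN1
    let B : ℕ → Finset ℕ := fun a =>
      (Finset.Icc 1 (2 * N)).filter (fun n => Nat.Coprime n a ∧ N < n + a ∧ n + a ≤ 2 * N ∧
        (rad n : ℝ) * rad (n + a) ≤ ((2 * N : ℕ) : ℝ) ^ (1 + δ))
    have hsub : G (2 * N) ⊆ G N ∪ (Finset.Icc 1 M).biUnion (fun a => (B a).image (fun n => (a, n))) := by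
      intro t ht
      rw [hmem] at ht
      obtain ⟨h1, h2, h3, h4, h5, h6⟩ := ht
      rw [Finset.mem_union]
      by_cases hc : t.1 + t.2 ≤ N
      · left
        rw [hmem]
        exact ⟨h1, h2, h3, hc, h5, h6⟩
      · right
        rw [Finset.mem_biUnion]
        have hcle : ((t.1 + t.2 : ℕ) : ℝ) ≤ ((2 * N : ℕ) : ℝ) := by exact_mod_cast h4
        refine ⟨t.1, ?_, ?_⟩
        · rw [Finset.mem_Icc]
          refine ⟨h1, ?_⟩
          rw [hM]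
          apply Nat.le_floor
          refine h5.trans ?_
          exact Real.rpow_le_rpow (by positivity) hcle hδ0.le
        · rw [Finset.mem_image]
          refine ⟨t.2, ?_, rfl⟩
          simp only [B]
          rw [Finset.mem_filter, Finset.mem_Icc]
          refine ⟨⟨h2, by omega⟩, h3.symm, by omega, by omega, ?_⟩
          have h7 := rad_mul_rad_le (a := t.1) (n := t.2) (by omega) (by omega) h3
          have h8 : ((rad t.2 * rad (t.1 + t.2) : ℕ) : ℝ)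
              ≤ ((∏ p ∈ (t.1 * t.2 * (t.1 + t.2)).primeFactors, p : ℕ) : ℝ) := by
            exact_mod_cast h7
          rw [Nat.add_comm t.2 t.1]
          have h9 : ((rad t.2 * rad (t.1 + t.2) : ℕ) : ℝ) = (rad t.2 : ℝ) * rad (t.1 + t.2) := by
            push_cast; ring
          rw [← h9]
          refine h8.trans (h6.trans ?_)
          exact Real.rpow_le_rpow (by positivity) hcle (by linarith)
    have hc1 : (G (2 * N)).card ≤ (G N).card + ∑ a ∈ Finset.Icc 1 M, (B a).card := by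
      refine (Finset.card_le_card hsub).trans ((Finset.card_union_le _ _).trans ?_)
      gcongr
      refine Finset.card_biUnion_le.trans ?_
      apply Finset.sum_le_sum
      intro a _
      exact Finset.card_image_le
    have hc2 : ∀ a ∈ Finset.Icc 1 M, ((B a).card : ℝ) ≤ (N : ℝ) ^ (1 / 2 - 2 * δ) := by
      intro a ha
      rw [Finset.mem_Icc] at ha
      apply h N hN a ha.1
      have h1 : (a : ℝ) ≤ (M : ℝ) := by exact_mod_cast ha.2
      exact h1.trans (Nat.floor_le (by positivity))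
    have hMr : (M : ℝ) ≤ ((2 * N : ℕ) : ℝ) ^ δ := Nat.floor_le (by positivity)
    have hMr2 : ((2 * N : ℕ) : ℝ) ^ δ ≤ 2 * (N : ℝ) ^ δ := by
      push_cast
      rw [Real.mul_rpow (by norm_num) (by linarith)]
      have h2 : (2 : ℝ) ^ δ ≤ 2 := by
        have h3 := Real.rpow_le_rpow_of_exponent_le (x := (2:ℝ)) (by norm_num) (show δ ≤ 1 by linarith)
        rwa [Real.rpow_one] at h3
      exact mul_le_mul_of_nonneg_right h2 (by positivity)
    have hc3 : ((G (2 * N)).card : ℝ) ≤ (G N).card + ∑ a ∈ Finset.Icc 1 M, ((B a).card : ℝ) := by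
      exact_mod_cast hc1
    have hc4 : ∑ a ∈ Finset.Icc 1 M, ((B a).card : ℝ) ≤ M * (N : ℝ) ^ (1 / 2 - 2 * δ) := by
      refine (Finset.sum_le_sum hc2).trans ?_
      rw [Finset.sum_const, Nat.card_Icc, nsmul_eq_mul]
      have : M + 1 - 1 = M := by omega
      rw [this]
    have hc5 : (M : ℝ) * (N : ℝ) ^ (1 / 2 - 2 * δ) ≤ 2 * (N : ℝ) ^ (1 / 2 - δ) := by
      calc (M : ℝ) * (N : ℝ) ^ (1 / 2 - 2 * δ) ≤ (2 * (N : ℝ) ^ δ) * (N : ℝ) ^ (1 / 2 - 2 * δ) := by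
            apply mul_le_mul_of_nonneg_right (hMr.trans hMr2) (by positivity)
        _ = 2 * ((N : ℝ) ^ δ * (N : ℝ) ^ (1 / 2 - 2 * δ)) := by ring
        _ = 2 * (N : ℝ) ^ (1 / 2 - δ) := by
            rw [← Real.rpow_add (by linarith)]
            congr 2
            ring
    linarith
  -- strong induction
  set C : ℝ := 18 + (2 * (N0 : ℝ) + 3) ^ 2 with hC
  have hCpos : 18 ≤ C := by
    have : (0:ℝ) ≤ (2 * (N0 : ℝ) + 3) ^ 2 := by positivity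
    linarith
  refine ⟨C, ?_⟩
  have claim : ∀ X : ℕ, ((G X).card : ℝ) ≤ C * (X : ℝ) ^ (1 / 2 - δ) := by
    intro X
    induction X using Nat.strong_induction_on with
    | _ X ih =>
      by_cases hX : X < 2 * N0 + 3
      · rcases Nat.eq_zero_or_pos X with h0 | h0
        · subst h0
          have : (G 0).card = 0 := by
            rw [Finset.card_eq_zero, Finset.eq_empty_iff_forall_notMem]
            intro t ht
            rw [hmem] at ht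
            omega
          rw [this]
          simp only [Nat.cast_zero]
          positivity
        · have h1 : (G X).card ≤ X * X := by
            have : (G X).card ≤ (Finset.Icc 1 X ×ˢ Finset.Icc 1 X).card :=
              Finset.card_le_card (Finset.filter_subset _ _)
            simpa using this
          have hXr : (1 : ℝ) ≤ X := by exact_mod_cast h0
          have h2 : (1 : ℝ) ≤ (X : ℝ) ^ (1 / 2 - δ) :=
            Real.one_le_rpow hXr (by linarith)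
          have h3 : ((G X).card : ℝ) ≤ (X : ℝ) * X := by exact_mod_cast h1
          have h4 : (X : ℝ) ≤ 2 * N0 + 3 := by
            have : X ≤ 2 * N0 + 3 := hX.le
            exact_mod_cast this
          have h5 : (X : ℝ) * X ≤ (2 * (N0 : ℝ) + 3) ^ 2 := by nlinarith
          have h6 : C * 1 ≤ C * (X : ℝ) ^ (1 / 2 - δ) :=
            mul_le_mul_of_nonneg_left h2 (by linarith)
          linarith
      · push Not at hX
        set N := (X + 1) / 2 with hN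
        have hN1 : N0 ≤ N := by omega
        have hN2 : 1 ≤ N := by omega
        have hN3 : N < X := by omega
        have hN4 : X ≤ 2 * N := by omega
        have hN5 : 3 * N ≤ 2 * X := by omega
        have i1 := ih N hN3
        have i2 := hblock N hN1 hN2
        have i3 : ((G X).card : ℝ) ≤ (G (2 * N)).card := by exact_mod_cast hmono X (2 * N) hN4
        have i4 : ((G X).card : ℝ) ≤ (C + 2) * (N : ℝ) ^ (1 / 2 - δ) := by linarith
        have hXr : (0 : ℝ) < X := by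
          have : 0 < X := by omega
          exact_mod_cast this
        have i5 : (N : ℝ) ≤ 2 / 3 * X := by
          have : ((3 * N : ℕ) : ℝ) ≤ ((2 * X : ℕ) : ℝ) := by exact_mod_cast hN5
          push_cast at this
          linarith
        have i6 : (N : ℝ) ^ (1 / 2 - δ) ≤ (2 / 3 : ℝ) ^ (1 / 2 - δ) * (X : ℝ) ^ (1 / 2 - δ) := by
          rw [← Real.mul_rpow (by norm_num) hXr.le]
          exact Real.rpow_le_rpow (by positivity) i5 (by linarith)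
        have i7 : (2 / 3 : ℝ) ^ (1 / 2 - δ) ≤ 9 / 10 := by
          have j1 : (2 / 3 : ℝ) ^ (1 / 2 - δ) ≤ (2 / 3 : ℝ) ^ (2 / 5 : ℝ) :=
            Real.rpow_le_rpow_of_exponent_ge (by norm_num) (by norm_num) (by linarith)
          have j2 : (2 / 3 : ℝ) ^ (2 / 5 : ℝ) ≤ 9 / 10 := by
            have j3 : ((2 / 3 : ℝ) ^ (2 / 5 : ℝ)) ^ (5 : ℕ) = (2 / 3) ^ 2 := by
              rw [← Real.rpow_natCast, ← Real.rpow_mul (by norm_num)]
              norm_num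
            by_contra hcon
            push Not at hcon
            have j4 : ((9 : ℝ) / 10) ^ 5 < ((2 / 3 : ℝ) ^ (2 / 5 : ℝ)) ^ (5 : ℕ) :=
              pow_lt_pow_left₀ hcon (by norm_num) (by norm_num)
            rw [j3] at j4
            norm_num at j4
          exact j1.trans j2
        have i8 : (0 : ℝ) ≤ (X : ℝ) ^ (1 / 2 - δ) := by positivity
        have i9 : (N : ℝ) ^ (1 / 2 - δ) ≤ 9 / 10 * (X : ℝ) ^ (1 / 2 - δ) :=
          i6.trans (mul_le_mul_of_nonneg_right i7 i8)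
        have i10 : (C + 2) * (N : ℝ) ^ (1 / 2 - δ) ≤ (C + 2) * (9 / 10 * (X : ℝ) ^ (1 / 2 - δ)) :=
          mul_le_mul_of_nonneg_left i9 (by linarith)
        have i11 : (C + 2) * (9 / 10) ≤ C := by linarith
        have i12 : (C + 2) * (9 / 10) * (X : ℝ) ^ (1 / 2 - δ) ≤ C * (X : ℝ) ^ (1 / 2 - δ) :=
          mul_le_mul_of_nonneg_right i11 i8
        linarith
  intro X
  exact claim X

end Pool.Agent.Helper94.Abc
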